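import Pool.Agent.Y330.H.B9

set_option autoImplicit false
set_option linter.unusedSectionVars false

open Filter Topology Set Metric unitInterval

namespace Pool.Agent.Y330.N

open Pool.Agent.H789R2.AN Pool.Agent.H789R2.GP Pool.Agent.TH304.K289 Pool.Agent.TH289.L
open Pool.Agent.Y330.G Pool.Agent.Y330.H

variable {X : Type*} [MetricSpace X] [CompactSpace X] {g : X ≃ₜ X} {c : ℝ}

theorem zp_nat (g : X ≃ₜ X) (n : ℕ) (x : X) : (g ^ (n : ℤ)) x = g^[n] x := by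
  rw [zpow_natCast]
  induction n generalizing x with
  | zero => rfl
  | succ n ih =>
    rw [pow_succ, Function.iterate_succ_apply, ← ih]
    rfl

theorem zp_add (g : X ≃ₜ X) (m n : ℤ) (x : X) : (g ^ (m + n)) x = (g ^ m) ((g ^ n) x) := by
  rw [zpow_add]
  rfl

theorem zp_neg (g : X ≃ₜ X) (n : ℕ) (x : X) : (g ^ (-(n : ℤ))) x = g.symm^[n] x := by
  have h1 : (g ^ (n : ℤ)) ((g ^ (-(n : ℤ))) x) = x := by
    rw [← zp_add, add_neg_cancel, zpow_zero]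
    rfl
  rw [zp_nat] at h1
  have h2 := congrArg (g.symm^[n]) h1
  rwa [iterL] at h2

theorem zp_zero (g : X ≃ₜ X) (x : X) : (g ^ (0 : ℤ)) x = x := by
  rw [zpow_zero]
  rfl

theorem zp_cancel (g : X ≃ₜ X) (n : ℤ) (x : X) : (g ^ n) ((g ^ (-n)) x) = x := by
  rw [← zp_add, add_neg_cancel, zp_zero]

theorem zp_cancel' (g : X ≃ₜ X) (n : ℤ) (x : X) : (g ^ (-n)) ((g ^ n) x) = x := by
  rw [← zp_add, neg_add_cancel, zp_zero]

/-- unstable levels, for integers -/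
def Lz (g : X ≃ₜ X) (ρ : ℝ) (i : ℤ) (x y : X) : Prop :=
  ∀ n : ℤ, i ≤ n → dist ((g ^ (-n)) x) ((g ^ (-n)) y) ≤ ρ

theorem Lz.mono {ρ : ℝ} {i j : ℤ} {x y : X} (h : Lz g ρ i x y) (hij : i ≤ j) : Lz g ρ j x y :=
  fun n hn => h n (hij.trans hn)

theorem Lz.symm {ρ : ℝ} {i : ℤ} {x y : X} (h : Lz g ρ i x y) : Lz g ρ i y x :=
  fun n hn => by
    rw [dist_comm]
    exact h n hn

theorem Lz.comm {ρ : ℝ} {i : ℤ} {x y : X} : Lz g ρ i x y ↔ Lz g ρ i y x :=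
  ⟨Lz.symm, Lz.symm⟩

theorem Lz.refl {ρ : ℝ} (hρ : 0 ≤ ρ) (i : ℤ) (x : X) : Lz g ρ i x x := fun n _ => by
  rw [dist_self]
  exact hρ

theorem Lz.shift {ρ : ℝ} {i m : ℤ} {x y : X} :
    Lz g ρ i ((g ^ m) x) ((g ^ m) y) ↔ Lz g ρ (i - m) x y := by
  constructor
  · intro h n hn
    have := h (n + m) (by omega)
    rw [← zp_add, ← zp_add] at this
    rwa [show -(n + m) + m = -n by ring] at this
  · intro h n hn
    have := h (n - m) (by omega)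
    rw [← zp_add, ← zp_add]
    rwa [show -(n - m) = -n + m by ring] at this

theorem lz_zero {ρ : ℝ} {x y : X} : Lz g ρ 0 x y ↔ SR g.symm ρ x y := by
  constructor
  · intro h k
    have := h k (by omega)
    rwa [zp_neg, zp_neg] at this
  · intro h n hn
    obtain ⟨k, rfl⟩ := Int.eq_ofNat_of_zero_le hn
    rw [zp_neg, zp_neg]
    exact h k

theorem lz_iff {ρ : ℝ} {i : ℤ} {x y : X} :
    Lz g ρ i x y ↔ SR g.symm ρ ((g ^ (-i)) x) ((g ^ (-i)) y) := by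
  rw [← lz_zero, Lz.shift]
  rw [show (0 : ℤ) - -i = i by ring]

theorem lz_nat {ρ : ℝ} {i : ℕ} {x y : X} : Lz g ρ (i : ℤ) x y ↔ Lv g ρ i x y := by
  rw [lz_iff, zp_neg, zp_neg]
  rfl

theorem Lz.ws (hg : LP g c) {ρ : ℝ} (hρ : ρ ≤ c) {i : ℤ} {x y : X} (h : Lz g ρ i x y) :
    WS g.symm x y := by
  obtain ⟨n, hn⟩ : ∃ n : ℕ, i ≤ n := ⟨i.toNat, Int.self_le_toNat i⟩
  have h1 : SR g.symm c (g.symm^[n] x) (g.symm^[n] y) := SR.mono (lz_nat.1 (h.mono hn)) hρ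
  exact (WS.iter (g := g.symm) n).1 (WS.of_SR (hg.cU _ _ h1))

theorem exists_lz {ρ : ℝ} (hρ : 0 < ρ) {x y : X} (h : WS g.symm x y) : ∃ i : ℕ,
    Lz g ρ (i : ℤ) x y := by
  obtain ⟨m, hm⟩ := h.eventually_lt hρ
  refine ⟨m, lz_nat.2 fun k => ?_⟩
  rw [← Function.iterate_add_apply, ← Function.iterate_add_apply]
  exact (hm _ (by omega)).le

theorem eq_of_lz (hg : LP g c) {ρ : ℝ} (hρ : ρ ≤ c) {x y : X}
    (h : ∀ n : ℕ, Lz g ρ (-(n : ℤ)) x y) : x = y := by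
  apply expans hg
  · intro k
    have := h k (-(k : ℤ)) le_rfl
    rw [neg_neg, zp_nat, zp_nat] at this
    exact this.trans hρ
  · exact SR.mono (lz_zero.1 (by simpa using h 0)) hρ

/-- the level of a pair -/
noncomputable def lev (g : X ≃ₜ X) (ρ : ℝ) (x y : X) : ℤ := sInf {i : ℤ | Lz g ρ i x y}

theorem lz_lev (hg : LP g c) {ρ : ℝ} (hρ0 : 0 < ρ) (hρ : ρ ≤ c) {x y : X} (hne : x ≠ y)
    (hw : WS g.symm x y) {i : ℤ} : Lz g ρ i x y ↔ lev g ρ x y ≤ i := by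
  obtain ⟨m, hm⟩ := exists_lz hρ0 hw
  have hne' : {i : ℤ | Lz g ρ i x y}.Nonempty := ⟨m, hm⟩
  have hbd : BddBelow {i : ℤ | Lz g ρ i x y} := by
    by_contra hcon
    apply hne
    apply eq_of_lz hg hρ
    intro n
    rw [not_bddBelow_iff] at hcon
    obtain ⟨j, hj, hj'⟩ := hcon (-(n : ℤ))
    exact Lz.mono hj hj'.le
  constructor
  · intro h
    exact csInf_le hbd h
  · intro h
    exact Lz.mono (Int.csInf_mem hne' hbd) h

theorem lev_comm (g : X ≃ₜ X) (ρ : ℝ) (x y : X) : lev g ρ x y = lev g ρ y x := by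
  unfold lev
  congr 1
  ext i
  exact Lz.comm

theorem lz_tri (hg : LP g c) {ρ : ℝ} (hρ : 2 * ρ ≤ c) {b : ℕ} (hb : c * (1 / 2) ^ b ≤ ρ) {i : ℤ}
    {x y z : X} (h1 : Lz g ρ i x y) (h2 : Lz g ρ i y z) : Lz g ρ (i + b) x z := by
  have h3 : SR g.symm c ((g ^ (-i)) x) ((g ^ (-i)) z) :=
    (sr_tr (lz_iff.1 h1) (lz_iff.1 h2)).mono (by linarith)
  have h4 := sr_back hg hb h3
  rw [← zp_neg, ← zp_neg, ← zp_add, ← zp_add] at h4
  rw [lz_iff]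
  rwa [show -(i + (b : ℤ)) = -(b : ℤ) + -i by ring]

theorem lev_tri (hg : LP g c) {ρ : ℝ} (hρ0 : 0 < ρ) (hρ : 2 * ρ ≤ c) {b : ℕ}
    (hb : c * (1 / 2) ^ b ≤ ρ) {x y z : X} (hxy : x ≠ y) (hyz : y ≠ z) (hxz : x ≠ z)
    (h1 : WS g.symm x y) (h2 : WS g.symm y z) :
    lev g ρ x z ≤ max (lev g ρ x y) (lev g ρ y z) + b := by
  rw [← lz_lev hg hρ0 (by linarith) hxz (h1.trans h2)]
  apply lz_tri hg hρ hb (y := y)
  · rw [lz_lev hg hρ0 (by linarith) hxy h1]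
    exact le_max_left _ _
  · rw [lz_lev hg hρ0 (by linarith) hyz h2]
    exact le_max_right _ _

/-- the stable path `τ` stopped at time `s` -/
noncomputable def stop (τ : C(I, SM g)) (s : I) : C(I, SM g) := ⟨fun r => τ (min r s), by fun_prop⟩

theorem stop_apply (τ : C(I, SM g)) (s r : I) : stop τ s r = τ (min r s) := rfl

theorem stop_one (τ : C(I, SM g)) : stop τ 1 = τ := by
  ext r
  rw [stop_apply, min_eq_left (unitInterval.le_one' : r ≤ 1)]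

theorem stop_stop (τ : C(I, SM g)) {s s' : I} (h : s' ≤ s) : stop (stop τ s) s' = stop τ s' := by
  ext r
  rw [stop_apply, stop_apply, stop_apply, min_assoc, min_eq_left h]

/-- the reversed path -/
noncomputable def rev (τ : C(I, SM g)) : C(I, SM g) := ⟨fun r => τ (σ r), by fun_prop⟩

theorem rev_apply (τ : C(I, SM g)) (r : I) : rev τ r = τ (σ r) := rfl

theorem rev_rev (τ : C(I, SM g)) : rev (rev τ) = τ := by
  ext r
  rw [rev_apply, rev_apply, unitInterval.symm_symm]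

/-- `Δ` is a strip over `τ` -/
def Over (τ : C(I, SM g)) (Δ : C(I, Pr g.symm)) : Prop := ∀ r, (Δ r).x = (τ r).val

/-- `y` is taken to `p` by the stable holonomy along `τ` -/
def Lft (g : X ≃ₜ X) (τ : C(I, SM g)) (y p : X) : Prop :=
  ∃ Δ : C(I, Pr g.symm), Over τ Δ ∧ (Δ 0).y = y ∧ (Δ 1).y = p

theorem over_unique (hg : LP g c) {τ : C(I, SM g)} {Δ Δ' : C(I, Pr g.symm)} (h : Over τ Δ)
    (h' : Over τ Δ') {t₀ : I} (h0 : (Δ t₀).y = (Δ' t₀).y) : ∀ t, (Δ t).y = (Δ' t).y :=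
  strip_unique (g := g.symm) hg.symm Δ Δ' (fun t => by rw [h, h']) h0

theorem Lft.unique (hg : LP g c) {τ : C(I, SM g)} {y p p' : X} (h : Lft g τ y p)
    (h' : Lft g τ y p') : p = p' := by
  obtain ⟨Δ, a1, a2, a3⟩ := h
  obtain ⟨Δ', b1, b2, b3⟩ := h'
  rw [← a3, ← b3]
  exact over_unique hg a1 b1 (t₀ := 0) (by rw [a2, b2]) 1

theorem Lft.inj (hg : LP g c) {τ : C(I, SM g)} {y y' p : X} (h : Lft g τ y p)
    (h' : Lft g τ y' p) : y = y' := by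
  obtain ⟨Δ, a1, a2, a3⟩ := h
  obtain ⟨Δ', b1, b2, b3⟩ := h'
  rw [← a2, ← b2]
  exact over_unique hg a1 b1 (t₀ := 1) (by rw [a3, b3]) 0

theorem Lft.base (τ : C(I, SM g)) : Lft g τ (τ 0).val (τ 1).val := by
  obtain ⟨Δ, h1, h2⟩ := strip_const' τ
  exact ⟨Δ, h1, h2 0, h2 1⟩

theorem Lft.ws0 {τ : C(I, SM g)} {y p : X} (h : Lft g τ y p) : WS g.symm (τ 0).val y := by
  obtain ⟨Δ, a1, a2, a3⟩ := h
  rw [← a1, ← a2]
  exact (Δ 0).h

theorem Lft.ws1 {τ : C(I, SM g)} {y p : X} (h : Lft g τ y p) : WS g.symm (τ 1).val p := by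
  obtain ⟨Δ, a1, a2, a3⟩ := h
  rw [← a1, ← a3]
  exact (Δ 1).h

/-- the second side of a strip is a stable path -/
theorem side (Δ : C(I, Pr g.symm)) : ∃ υ : C(I, SM g), ∀ r, (υ r).val = (Δ r).y :=
  ⟨⟨fun r => (Δ r).snd, (qs_snd_cont g.symm).comp Δ.continuous⟩, fun _ => rfl⟩

theorem path_ws (hg : LP g c) (υ : C(I, SM g)) (r r' : I) : WS g (υ r).val (υ r').val := by
  obtain ⟨n, hn⟩ := path_small hg υ (half_pos hg.c_pos)
  have h1 := hn n le_rfl r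
  have h2 := hn n le_rfl r'
  have h3 : SR g c (g^[n] (υ r).val) (g^[n] (υ r').val) :=
    (sr_tr h1.symm' h2).mono (by linarith)
  exact (WS.iter n).1 (WS.of_SR (hg.cS _ _ h3))

theorem Lft.wsS (hg : LP g c) {τ : C(I, SM g)} {y p : X} (h : Lft g τ y p) : WS g y p := by
  obtain ⟨Δ, a1, a2, a3⟩ := h
  obtain ⟨υ, hυ⟩ := side Δ
  have := path_ws hg υ 0 1
  rwa [hυ, hυ, a2, a3] at this

theorem Lft.stop_le {τ : C(I, SM g)} {s s' : I} (hs : s' ≤ s) {y p : X}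
    (h : Lft g (stop τ s) y p) : ∃ p', Lft g (stop τ s') y p' := by
  obtain ⟨Δ, a1, a2, a3⟩ := h
  refine ⟨(Δ (min 1 s')).y, ⟨fun r => Δ (min r s'), by fun_prop⟩, fun r => ?_, ?_, rfl⟩
  · show (Δ (min r s')).x = (stop τ s' r).val
    rw [a1, stop_apply, stop_apply, min_assoc, min_eq_left hs]
  · show (Δ (min 0 s')).y = y
    rw [min_eq_left (unitInterval.nonneg' : 0 ≤ s'), a2]

theorem Lft.stop_of {τ : C(I, SM g)} (s : I) {y p : X} (h : Lft g τ y p) :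
    ∃ p', Lft g (stop τ s) y p' := by
  have h' : Lft g (stop τ 1) y p := by rwa [stop_one]
  exact h'.stop_le unitInterval.le_one'

theorem Lft.rev {τ : C(I, SM g)} {y p : X} (h : Lft g τ y p) : Lft g (rev τ) p y := by
  obtain ⟨Δ, a1, a2, a3⟩ := h
  refine ⟨⟨fun r => Δ (σ r), by fun_prop⟩, fun r => ?_, ?_, ?_⟩
  · show (Δ (σ r)).x = (N.rev τ r).val
    rw [a1, rev_apply]
  · show (Δ (σ 0)).y = p
    rw [unitInterval.symm_zero, a3]
  · show (Δ (σ 1)).y = y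
    rw [unitInterval.symm_one, a2]

theorem over_comp {τ υ : C(I, SM g)} {Δ Δ' : C(I, Pr g.symm)} (h : Over τ Δ)
    (hυ : ∀ r, (υ r).val = (Δ r).y) (h' : Over υ Δ') : ∃ Δ'' : C(I, Pr g.symm), Over τ Δ'' ∧
      ∀ r, (Δ'' r).y = (Δ' r).y := by
  obtain ⟨Δ'', h1, h2⟩ := strip_comp (g := g.symm) Δ Δ' (fun t => by rw [h' t, hυ])
  exact ⟨Δ'', fun r => by rw [h1, h], h2⟩

theorem over_swap {τ υ : C(I, SM g)} {Δ : C(I, Pr g.symm)} (h : Over τ Δ)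
    (hυ : ∀ r, (υ r).val = (Δ r).y) : ∃ Δ' : C(I, Pr g.symm), Over υ Δ' ∧
      ∀ r, (Δ' r).y = (τ r).val := by
  obtain ⟨Δ', h1, h2⟩ := strip_swap (g := g.symm) Δ
  exact ⟨Δ', fun r => by rw [h1, hυ], fun r => by rw [h2, h]⟩

/-- change of the base path -/
theorem Lft.rebase {τ υ : C(I, SM g)} {Δ : C(I, Pr g.symm)} (h : Over τ Δ)
    (hυ : ∀ r, (υ r).val = (Δ r).y) {z q : X} : Lft g τ z q ↔ Lft g υ z q := by
  constructor
  · rintro ⟨Δ₁, a1, a2, a3⟩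
    obtain ⟨Δ', b1, b2⟩ := over_swap h hυ
    obtain ⟨Δ'', d1, d2⟩ := over_comp b1 (fun r => (b2 r).symm) a1
    exact ⟨Δ'', d1, by rw [d2, a2], by rw [d2, a3]⟩
  · rintro ⟨Δ₁, a1, a2, a3⟩
    obtain ⟨Δ'', d1, d2⟩ := over_comp h hυ a1
    exact ⟨Δ'', d1, by rw [d2, a2], by rw [d2, a3]⟩

theorem Lft.rebase' {τ : C(I, SM g)} {y p : X} (h : Lft g τ y p) : ∃ υ : C(I, SM g),
    (υ 0).val = y ∧ (υ 1).val = p ∧ (∀ z q, Lft g τ z q ↔ Lft g υ z q) ∧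
      ∀ s z q, Lft g (stop τ s) z q ↔ Lft g (stop υ s) z q := by
  obtain ⟨Δ, a1, a2, a3⟩ := h
  obtain ⟨υ, hυ⟩ := side Δ
  refine ⟨υ, by rw [hυ, a2], by rw [hυ, a3], fun z q => Lft.rebase a1 hυ, fun s z q => ?_⟩
  let Δ' : C(I, Pr g.symm) := ⟨fun r => Δ (min r s), by fun_prop⟩
  refine Lft.rebase (Δ := Δ') (fun r => ?_) (fun r => ?_)
  · show (Δ (min r s)).x = _
    rw [a1]
    rfl
  · show (υ (min r s)).val = (Δ (min r s)).y
    rw [hυ]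

end Pool.Agent.Y330.N
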