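import Pool.Agent.Y330.N.A1

set_option autoImplicit false
set_option linter.unusedSectionVars false

open Filter Topology Set Metric unitInterval

namespace Pool.Agent.Y330.N

open Pool.Agent.H789R2.AN Pool.Agent.H789R2.GP Pool.Agent.TH304.K289 Pool.Agent.TH289.L
open Pool.Agent.Y330.G Pool.Agent.Y330.H

variable {X : Type*} [MetricSpace X] [CompactSpace X] {g : X ≃ₜ X} {c : ℝ}

theorem const_side (hg : LP g c) (Δ : C(I, Pr g.symm)) {x₀ : X} (h : ∀ r, (Δ r).x = x₀) (r r' : I) :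
    (Δ r).y = (Δ r').y := by
  have := strip_unique (g := g.symm) hg.symm Δ (ContinuousMap.const I (Δ r'))
    (fun t => by rw [h]; exact (h r').symm) (t₀ := r') rfl r
  exact this

theorem glue_strip (hg : LP g c) {τ : C(I, SM g)} {s s' : I} (hs : s ≤ s')
    {Δ₁ Δ₂ : C(I, Pr g.symm)} (h1 : Over (stop τ s) Δ₁)
    (h2 : ∀ r, (Δ₂ r).x = (τ (max s (min r s'))).val) (h0 : (Δ₂ 0).y = (Δ₁ 1).y) :
    ∃ Δ : C(I, Pr g.symm), Over (stop τ s') Δ ∧ (Δ 0).y = (Δ₁ 0).y ∧ (Δ 1).y = (Δ₂ 1).y := by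
  classical
  have e1 : (Δ₁ s).y = (Δ₁ 1).y := by
    have := const_side hg ⟨fun r => Δ₁ (max s r), by fun_prop⟩ (x₀ := (τ s).val) (fun r => by
      show (Δ₁ (max s r)).x = _
      rw [h1, stop_apply, min_eq_right (le_max_left _ _)]) 0 1
    have e : (Δ₁ (max s 0)).y = (Δ₁ (max s 1)).y := this
    rwa [max_eq_left (unitInterval.nonneg' : 0 ≤ s), max_eq_right (unitInterval.le_one' : s ≤ 1)] at e
  have e2 : (Δ₂ s).y = (Δ₂ 0).y := by
    have := const_side hg ⟨fun r => Δ₂ (min s r), by fun_prop⟩ (x₀ := (τ s).val) (fun r => by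
      show (Δ₂ (min s r)).x = _
      rw [h2, max_eq_left ((min_le_left _ _).trans (min_le_left _ _))]) 1 0
    have e : (Δ₂ (min s 1)).y = (Δ₂ (min s 0)).y := this
    rwa [min_eq_left (unitInterval.le_one' : s ≤ 1), min_eq_right (unitInterval.nonneg' : 0 ≤ s)] at e
  have hc : Continuous fun r : I => if r ≤ s then Δ₁ r else Δ₂ r := by
    refine Continuous.if_le Δ₁.continuous Δ₂.continuous continuous_id continuous_const ?_
    intro r hr
    subst hr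
    refine Pr.ext ?_ ?_
    · rw [h1, h2, stop_apply, min_self, min_eq_left hs, max_self]
    · rw [e1, e2, h0]
  have k0 : (if (0 : I) ≤ s then Δ₁ 0 else Δ₂ 0).y = (Δ₁ 0).y := by
    rw [if_pos unitInterval.nonneg']
  refine ⟨⟨_, hc⟩, fun r => ?_, k0, ?_⟩
  · show (if r ≤ s then Δ₁ r else Δ₂ r).x = _
    split_ifs with hr
    · rw [h1, stop_apply, stop_apply, min_eq_left hr, min_eq_left (hr.trans hs)]
    · push Not at hr
      rw [h2, stop_apply, max_eq_right]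
      exact le_min hr.le hs
  · show (if (1 : I) ≤ s then Δ₁ 1 else Δ₂ 1).y = _
    split_ifs with hr
    · have hs1 : s = 1 := le_antisymm unitInterval.le_one' hr
      rw [hs1] at e2 e1
      rw [e2, h0]
    · rfl

/-- continuation of strips -/
theorem cont_lift (hg : LP g c) (hX : ULC X) {c₁ : ℝ} (hc₁ : 0 < c₁) (hs : Sl g c c₁) {ρ : ℝ}
    (hρ : ρ ≤ c) (τ : C(I, SM g)) (j : ℕ) : ∃ δ > 0, ∀ s s' : I, s ≤ s' → dist s s' < δ →
      ∀ y p, Lft g (stop τ s) y p → Lz g ρ j (τ s).val p → ∃ p', Lft g (stop τ s') y p' := by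
  obtain ⟨η₁, hη₁, hpath⟩ := leaf_path hg.symm hX c₁ hc₁
  obtain ⟨b, hb⟩ := pw (c := c) hη₁
  obtain ⟨η, hη, hsl⟩ := hs 1 one_pos (b + j)
  have hu : UniformContinuous τ := CompactSpace.uniformContinuous_of_continuous τ.continuous
  rw [Metric.uniformContinuous_iff] at hu
  obtain ⟨δ, hδ, hτδ⟩ := hu η hη
  refine ⟨δ, hδ, fun s s' hss hd y p ⟨Δ₁, a1, a2, a3⟩ hp => ?_⟩
  have e4 := sr_back hg hb (SR.mono (lz_nat.1 hp) hρ)
  obtain ⟨w', h1, h2, h3⟩ := hpath ⟨g.symm^[b] (g.symm^[j] (τ s).val)⟩ ⟨g.symm^[b] (g.symm^[j] p)⟩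
    ((SM.dist_le _ _ hη₁.le).2 e4)
  obtain ⟨w, hw⟩ := path_push (b + j) w'
  have hr : ∀ y : X, g^[b + j] (g.symm^[b] (g.symm^[j] y)) = y := fun y => by
    rw [← Function.iterate_add_apply g.symm b j, iterR]
  have hw0 : (w 0).val = (τ s).val := by rw [hw, h1, hr]
  have hw1 : (w 1).val = p := by rw [hw, h2, hr]
  have hwl : ∀ t, SR g.symm c₁ (g.symm^[b + j] (w 0).val) (g.symm^[b + j] (w t).val) := by
    intro t
    rw [hw, hw, iterL, iterL, h1]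
    exact (SM.dist_le _ _ hc₁.le).1 (h3 t)
  have hcl : ∀ r : I, dist s (max s (min r s')) < δ := by
    intro r
    refine lt_of_le_of_lt ?_ hd
    rw [Subtype.dist_eq, Subtype.dist_eq, dist_comm (s : ℝ), dist_comm (s : ℝ), Real.dist_eq,
      Real.dist_eq]
    have m1 : (s : ℝ) ≤ (max s (min r s') : I) := Subtype.coe_le_coe.2 (le_max_left _ _)
    have m2 : ((max s (min r s') : I) : ℝ) ≤ s' := Subtype.coe_le_coe.2 (max_le hss (min_le_right _ _))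
    rw [abs_of_nonneg (by linarith), abs_of_nonneg (by linarith)]
    linarith
  let τ' : C(I, SM g) := ⟨fun r => τ (max s (min r s')), by fun_prop⟩
  obtain ⟨T, t1, t2, t3⟩ := rc_of_strips hg hc₁ hs τ' w
    (by
      show (τ (max s (min 0 s'))).val = _
      rw [min_eq_left (unitInterval.nonneg' : 0 ≤ s'), max_eq_left (unitInterval.nonneg' : 0 ≤ s), hw0])
    (fun r => by
      obtain ⟨Γ, b1, b2, -, -⟩ := hsl w (τ' r).val (by
        rw [hw0]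
        exact (SM.dist_le _ _ hη.le).mp (hτδ (hcl r)).le) hwl
      exact ⟨Γ, b1, b2⟩)
  obtain ⟨Δ₂, d1, d2⟩ := t1.tr.strip 0 1
  obtain ⟨Δ, f1, f2, f3⟩ := glue_strip hg hss a1 (Δ₂ := Δ₂) (fun r => by rw [d1, t2]; rfl)
    (by rw [d2, t3, hw1, a3])
  exact ⟨_, Δ, f1, by rw [f2, a2], rfl⟩

/-- nearby points lift too -/
theorem open_lift (hg : LP g c) {c₁ : ℝ} (hc₁ : 0 < c₁) (hs' : Sl g.symm c c₁) {τ : C(I, SM g)}
    {Δ : C(I, Pr g.symm)} (h : Over τ Δ) {e : ℝ} (he : 0 < e) : ∃ j : ℕ, ∃ η > 0, ∀ y',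
      SR g.symm η (Δ 0).y y' → ∃ Δ' : C(I, Pr g.symm), Over τ Δ' ∧ (Δ' 0).y = y' ∧
        (∀ r, SR g.symm e (Δ r).y (Δ' r).y) ∧ ∀ r, SR g (c / 3) (g^[j] y') (g^[j] (Δ' r).y) := by
  obtain ⟨υ, hυ⟩ := side Δ
  obtain ⟨j, hj⟩ := path_small hg υ hc₁
  obtain ⟨η, hη, hsl⟩ := hs'.tr e he j
  refine ⟨j, η, hη, fun y' hy' => ?_⟩
  obtain ⟨Γ, a1, a2, a3, a4⟩ := hsl υ y' (by rw [hυ]; exact hy') (hj j le_rfl)
  obtain ⟨Δ', b1, b2⟩ := over_comp h hυ (Δ' := Γ) a2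
  exact ⟨Δ', b1, by rw [b2, a1], fun r => by rw [b2, ← hυ]; exact a3 r,
    fun r => by rw [b2]; exact a4 r⟩

/-- in a bounded part of an unstable leaf, closeness in `X` gives closeness in the leaf -/
theorem near_leaf (hg : LP g c) {ρ : ℝ} (hρ : ρ ≤ c) (i : ℤ) {η : ℝ} (hη : 0 < η) (y : X) :
    ∀ᶠ y' in 𝓝 y, Lz g ρ i y y' → SR g.symm η y y' := by
  obtain ⟨n, hn⟩ : ∃ n : ℕ, i ≤ n := ⟨i.toNat, Int.self_le_toNat i⟩
  have hcm : ∀ x, g (g.symm x) = g.symm (g x) := fun x => by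
    rw [g.symm_apply_apply, g.apply_symm_apply]
  obtain ⟨η', hη', h1⟩ := uc_map_iter (g := g.symm) (φ := g) hcm n η hη
  obtain ⟨δ, hδ, h2⟩ := qs_SR_of_dist hg.symm η' hη'
  have h3 : Tendsto (fun y' => g.symm^[n] y') (𝓝 y) (𝓝 (g.symm^[n] y)) :=
    (g.symm.continuous.iterate n).tendsto y
  filter_upwards [(Metric.tendsto_nhds.mp h3) δ hδ] with y' hy' hl
  have h4 := h1 _ _ (h2 _ _ (SR.mono (lz_nat.1 (hl.mono hn)) hρ) (by rwa [dist_comm]))
  rwa [iterR, iterR] at h4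

theorem compact_lift (hg : LP g c) {c₁ : ℝ} (hc₁ : 0 < c₁) (hs' : Sl g.symm c c₁) {ρ : ℝ}
    (hρ0 : 0 < ρ) (hρ : 2 * ρ ≤ c) (τ : C(I, SM g)) {K : Set X} (hK : IsClosed K) {i : ℤ}
    (hKi : ∀ y ∈ K, ∀ y' ∈ K, Lz g ρ i y y') (hL : ∀ y ∈ K, ∃ p, Lft g τ y p) {c₂ : ℝ}
    (hc₂ : 0 < c₂) : ∃ j m : ℕ, ∀ y ∈ K, ∀ Δ : C(I, Pr g.symm), Over τ Δ → (Δ 0).y = y →
      (∀ r, Lz g ρ j (τ r).val (Δ r).y) ∧ ∀ n ≥ m, ∀ r, SR g c₂ (g^[n] y) (g^[n] (Δ r).y) := by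
  obtain ⟨b, hb⟩ := pw (c := c) hρ0
  obtain ⟨b₂, hb₂⟩ := pw (c := c) hc₂
  have hc := hg.c_pos
  have key : ∃ j m : ℕ, ∀ y ∈ K ∩ K, ∀ Δ : C(I, Pr g.symm), Over τ Δ → (Δ 0).y = y →
      (∀ r, Lz g ρ j (τ r).val (Δ r).y) ∧ ∀ n ≥ m, ∀ r, SR g c₂ (g^[n] y) (g^[n] (Δ r).y) := by
    refine (hK.isCompact).induction_on (p := fun S => ∃ j m : ℕ, ∀ y ∈ S ∩ K,
      ∀ Δ : C(I, Pr g.symm), Over τ Δ → (Δ 0).y = y →
      (∀ r, Lz g ρ j (τ r).val (Δ r).y) ∧ ∀ n ≥ m, ∀ r, SR g c₂ (g^[n] y) (g^[n] (Δ r).y))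
      ?_ ?_ ?_ ?_
    · exact ⟨0, 0, fun v hv => absurd hv.1 (notMem_empty v)⟩
    · rintro S T hST ⟨j, m, h1⟩
      exact ⟨j, m, fun v hv => h1 v ⟨hST hv.1, hv.2⟩⟩
    · rintro S T ⟨j, m, h1⟩ ⟨j', m', h2⟩
      refine ⟨max j j', max m m', fun v hv Δ h3 h4 => ?_⟩
      rcases hv with ⟨hv | hv, hvR⟩
      · obtain ⟨a1, a2⟩ := h1 v ⟨hv, hvR⟩ Δ h3 h4
        exact ⟨fun r => (a1 r).mono (by push_cast; exact le_max_left _ _),
          fun n hn => a2 n ((le_max_left _ _).trans hn)⟩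
      · obtain ⟨a1, a2⟩ := h2 v ⟨hv, hvR⟩ Δ h3 h4
        exact ⟨fun r => (a1 r).mono (by push_cast; exact le_max_right _ _),
          fun n hn => a2 n ((le_max_right _ _).trans hn)⟩
    · intro y hy
      obtain ⟨p, Δ, a1, a2, a3⟩ := hL y hy
      obtain ⟨j, η, hη, ho⟩ := open_lift hg hc₁ hs' a1 hρ0
      obtain ⟨n, hn⟩ := strip_con (g := g.symm) Δ ρ hρ0
      refine ⟨_, mem_nhdsWithin_of_mem_nhds (near_leaf hg (show ρ ≤ c by linarith) i hη y), n + b,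
        j + b₂, fun y' hy' Δ' b1 b2 => ?_⟩
      obtain ⟨Δ'', d1, d2, d3, d4⟩ := ho y' (by rw [a2]; exact hy'.1 (hKi _ hy _ hy'.2))
      have e := over_unique hg b1 d1 (t₀ := 0) (by rw [b2, d2])
      refine ⟨fun r => ?_, fun k hk r => ?_⟩
      · rw [e]
        have f1 : Lz g ρ (n : ℤ) (τ r).val (Δ r).y := by
          rw [lz_nat, ← a1]
          intro k
          rw [← Function.iterate_add_apply, ← Function.iterate_add_apply]
          exact hn _ (by omega) r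
        have f2 : Lz g ρ (n : ℤ) (Δ r).y (Δ'' r).y := (lz_zero.2 (d3 r)).mono (by omega)
        have := lz_tri hg hρ hb f1 f2
        push_cast
        exact this
      · rw [e]
        intro q
        have f1 := hg.cS _ _ ((d4 r).mono (show c / 3 ≤ c by linarith)) (q + (k - j))
        rw [← Function.iterate_add_apply, ← Function.iterate_add_apply,
          show q + (k - j) + j = q + k by omega] at f1
        rw [← Function.iterate_add_apply, ← Function.iterate_add_apply]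
        exact f1.trans ((pw_anti hc (by omega)).trans hb₂)
  obtain ⟨j, m, h⟩ := key
  exact ⟨j, m, fun y hy => h y ⟨hy, hy⟩⟩

end Pool.Agent.Y330.N
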