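import Pool.Agent.Y330.N.A2

set_option autoImplicit false
set_option linter.unusedSectionVars false

open Filter Topology Set Metric unitInterval

namespace Pool.Agent.Y330.N

open Pool.Agent.H789R2.AN Pool.Agent.H789R2.GP Pool.Agent.TH304.K289 Pool.Agent.TH289.L
open Pool.Agent.Y330.G Pool.Agent.Y330.H

variable {X : Type*} [MetricSpace X] [CompactSpace X] {g : X ≃ₜ X} {c : ℝ}

theorem zp_comm (g : X ≃ₜ X) (m : ℤ) (x : X) : (g ^ m) (g.symm x) = g.symm ((g ^ m) x) := by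
  have h : ∀ y : X, (g ^ (-1 : ℤ)) y = g.symm y := fun y => zp_neg g 1 y
  rw [← h, ← h, ← zp_add, ← zp_add, add_comm]

theorem zp_comm' (g : X ≃ₜ X) (m : ℤ) (x : X) : (g ^ m) (g x) = g ((g ^ m) x) := by
  have h : ∀ y : X, (g ^ (1 : ℤ)) y = g y := fun y => zp_nat g 1 y
  rw [← h, ← h, ← zp_add, ← zp_add, add_comm]

/-- the iterated path -/
noncomputable def zpath (m : ℤ) (τ : C(I, SM g)) : C(I, SM g) :=
  ⟨fun r => ⟨(g ^ m) (τ r).val⟩,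
    (SM.continuous_map (g := g) (φ := g ^ m) (zp_comm' g m)).comp τ.continuous⟩

theorem zpath_apply (m : ℤ) (τ : C(I, SM g)) (r : I) : (zpath m τ r).val = (g ^ m) (τ r).val := rfl

theorem Lft.shift (m : ℤ) {τ : C(I, SM g)} {y p : X} (h : Lft g τ y p) :
    Lft g (zpath m τ) ((g ^ m) y) ((g ^ m) p) := by
  obtain ⟨Δ, a1, a2, a3⟩ := h
  refine ⟨⟨_, (map_Pr_continuous (g := g.symm) (φ := g ^ m) (zp_comm g m)).comp Δ.continuous⟩,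
    fun r => ?_, ?_, ?_⟩
  · show (g ^ m) (Δ r).x = _
    rw [a1]
    rfl
  · show (g ^ m) (Δ 0).y = _
    rw [a2]
  · show (g ^ m) (Δ 1).y = _
    rw [a3]

theorem Lft.unshift (m : ℤ) {τ : C(I, SM g)} {y p : X} (h : Lft g (zpath m τ) ((g ^ m) y) p) :
    Lft g τ y ((g ^ (-m)) p) := by
  have h1 := h.shift (-m)
  rw [zp_cancel'] at h1
  have h2 : zpath (-m) (zpath m τ) = τ := by
    ext r
    rw [zpath_apply, zpath_apply, zp_cancel']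
  rwa [h2] at h1

theorem over_shift (m : ℤ) {τ : C(I, SM g)} {Δ : C(I, Pr g.symm)} (h : Over τ Δ) :
    ∃ Δ' : C(I, Pr g.symm), Over (zpath m τ) Δ' ∧ ∀ r, (Δ' r).y = (g ^ m) (Δ r).y := by
  refine ⟨⟨_, (map_Pr_continuous (g := g.symm) (φ := g ^ m) (zp_comm g m)).comp
    Δ.continuous⟩, fun r => ?_, fun r => rfl⟩
  show (g ^ m) (Δ r).x = _
  rw [h]
  rfl

theorem over_rev {τ : C(I, SM g)} {Δ : C(I, Pr g.symm)} (h : Over τ Δ) :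
    ∃ Δ' : C(I, Pr g.symm), Over (rev τ) Δ' ∧ ∀ r, (Δ' r).y = (Δ (σ r)).y :=
  ⟨⟨fun r => Δ (σ r), by fun_prop⟩, fun r => h (σ r), fun _ => rfl⟩

theorem sep_strip (hg : LP g c) (hX : ULC X) {c₁ : ℝ} (hc₁ : 0 < c₁) (hs : Sl g c c₁) :
    ∃ θ > 0, ∀ (τ : C(I, SM g)) (Δ Δ' : C(I, Pr g.symm)) (n : ℕ), Over τ Δ → Over τ Δ' →
      (∀ r, SR g θ (g^[n] (Δ 0).y) (g^[n] (Δ r).y)) →
      SR g.symm θ (g^[n] (Δ 1).y) (g^[n] (Δ' 1).y) →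
      SR g.symm (c / 3) (g^[n] (Δ 0).y) (g^[n] (Δ' 0).y) := by
  obtain ⟨η, hη, hsl⟩ := hs 1 one_pos 0
  obtain ⟨η₁, hη₁, hp⟩ := leaf_path hg.symm hX c₁ hc₁
  refine ⟨min (η / 2) η₁, by positivity, fun τ Δ Δ' n h h' hrow hend => ?_⟩
  obtain ⟨κ, hκ0, hκ1, hκ⟩ := hp ⟨g^[n] (Δ 1).y⟩ ⟨g^[n] (Δ' 1).y⟩
    ((SM.dist_le _ _ hη₁.le).2 (hend.mono (min_le_right _ _)))
  have hκ' : ∀ t, SR g.symm c₁ (κ 0).val (κ t).val := fun t => by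
    rw [hκ0]
    exact (SM.dist_le _ _ hc₁.le).1 (hκ t)
  obtain ⟨Δ₁, o1, o2⟩ := over_shift n h
  obtain ⟨Δ₂, o3, o4⟩ := over_shift n h'
  obtain ⟨Δ₁r, p1, p2⟩ := over_rev o1
  obtain ⟨Δ₂r, p3, p4⟩ := over_rev o3
  obtain ⟨u, hu⟩ := side Δ₁r
  have hu' : ∀ r, (u r).val = g^[n] (Δ (σ r)).y := fun r => by rw [hu, p2, o2, zp_nat]
  have hu0 : (u 0).val = (κ 0).val := by
    rw [hu', hκ0, unitInterval.symm_zero]
  have hex : ∀ r, ∃ Γ : C(I, Pr g), (Γ 0).y = (u r).val ∧ (∀ t, (Γ t).x = (κ t).val) ∧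
      ∀ t, SR g.symm (c / 3) (u r).val (Γ t).y := by
    intro r
    have e1 : SR g η (κ 0).val (u r).val := by
      rw [← hu0, hu', hu', unitInterval.symm_zero]
      exact (sr_tr (hrow 1).symm' (hrow (σ r))).mono (by linarith [min_le_left (η / 2) η₁])
    obtain ⟨Γ, a1, a2, -, a4⟩ := hsl κ (u r).val e1 hκ'
    exact ⟨Γ, a1, a2, a4⟩
  obtain ⟨Φ, hΦ, hΦ0, hΦ1⟩ := rc_of_strips hg hc₁ hs u κ hu0
    (fun r => by obtain ⟨Γ, a1, a2, -⟩ := hex r; exact ⟨Γ, a1, a2⟩)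
  have hfar : SR g.symm (c / 3) (u 1).val (Φ 1 1) := by
    obtain ⟨Γ, a1, a2, a3⟩ := hex 1
    obtain ⟨Γ', b1, b2⟩ := hΦ.strip 0 1
    have := strip_unique hg Γ' Γ (fun t => by rw [b1, hΦ1, a2]) (t₀ := 0)
      (by rw [b2, hΦ0, a1]) 1
    rw [b2] at this
    rw [this]
    exact a3 1
  obtain ⟨Ξ, x1, x2⟩ := hΦ.tr.strip 0 1
  have x3 : Over u Ξ := fun r => by rw [x1, hΦ0]
  obtain ⟨Δ₃, q1, q2⟩ := over_swap p1 hu
  obtain ⟨Ξ', y1, y2⟩ := over_comp q1 (fun r => (q2 r).symm) p3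
  have hkey := over_unique hg x3 y1 (t₀ := 0) (by
    rw [x2, y2, p4, o4, hΦ1, hκ1, unitInterval.symm_zero, zp_nat]) 1
  rw [x2, y2, p4, o4, unitInterval.symm_one, zp_nat] at hkey
  rw [hkey, hu', unitInterval.symm_one] at hfar
  exact hfar

end Pool.Agent.Y330.N
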