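import Pool.Agent.Y330.N.A3

set_option autoImplicit false
set_option linter.unusedSectionVars false

open Filter Topology Set Metric unitInterval

namespace Pool.Agent.Y330.N

open Pool.Agent.H789R2.AN Pool.Agent.H789R2.GP Pool.Agent.TH304.K289 Pool.Agent.TH289.L
open Pool.Agent.Y330.G Pool.Agent.Y330.H

variable {X : Type*} [MetricSpace X] [CompactSpace X] {g : X ≃ₜ X} {c : ℝ}

theorem closed_sr (g : X ≃ₜ X) (ρ : ℝ) (x : X) : IsClosed {y | SR g ρ x y} := by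
  have : {y | SR g ρ x y} = ⋂ k : ℕ, {y | dist (g^[k] x) (g^[k] y) ≤ ρ} := by
    ext y
    simp [SR]
  rw [this]
  exact isClosed_iInter fun k => isClosed_le
    (continuous_const.dist (g.continuous.iterate k)) continuous_const

/-- The counting lemma: if the holonomy along `τ` maps the balls about the points of `F` into one
ball, then `F` has few points. -/
theorem into_count (hg : LP g c) (hX : ULC X) {c₁ : ℝ} (hc₁ : 0 < c₁) (hs : Sl g c c₁)
    (hs' : Sl g.symm c c₁) {ρ : ℝ} (hρ0 : 0 < ρ) (hρc : ρ ≤ c / 4) {R : Set X}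
    (hR : MinAtt g.symm R) (K : ℕ) : ∃ N : ℕ, ∀ τ : C(I, SM g), (τ 0).val ∈ R → ∀ F : Finset X,
      (∀ t ∈ F, t ∈ R) → (∀ t ∈ F, WS g.symm (τ 0).val t) →
      (∀ t ∈ F, ∀ t' ∈ F, t ≠ t' → ¬ SR g.symm c t t') →
      (∀ t ∈ F, ∀ p, SR g.symm ρ t p → ∃ q, Lft g τ p q ∧ Lz g ρ K (τ 1).val q) →
      F.card ≤ N := by
  classical
  have hc := hg.c_pos
  have hinv : ∀ (J : ℕ) (z : X), g^[J] z ∈ R ↔ z ∈ R := fun J z =>
    inv_iter (fun x => by rw [← hR.1.inv (g x), g.symm_apply_apply]) J z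
  have hinv' : ∀ (J : ℕ) (z : X), g.symm^[J] z ∈ R ↔ z ∈ R := fun J z => inv_iter hR.1.inv J z
  obtain ⟨C, hC⟩ := growth_rep hg hR
  obtain ⟨K₂, -, j₂, hK₂⟩ := P_eps hg (ε := c / 4) (ε' := ρ) (δ := c / 2) (by linarith) hρ0
    (by linarith) (by linarith) (by linarith)
  obtain ⟨θ, hθ, hsepl⟩ := sep_strip hg hX hc₁ hs
  obtain ⟨b₂, hb₂⟩ := pw (c := c) hθ
  obtain ⟨K₁, -, hK₁⟩ := P_shift hg (ε := ρ) (δ := c / 2) (by linarith) (by linarith)
    (by linarith) (K + b₂)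
  have hcmp : ∀ n, ∀ x ∈ R, ∀ y ∈ R, P g ρ (c / 2) n x ≤ C * K₂ * P g ρ (c / 2) n y := by
    intro n x hx y hy
    calc P g ρ (c / 2) n x ≤ P g (c / 4) (c / 2) n x := P_mono_eps (by linarith) hρc _ _
      _ ≤ C * P g (c / 4) (c / 2) n (g^[j₂] y) := hC n x hx _ ((hinv _ _).mpr hy)
      _ ≤ C * (K₂ * P g ρ (c / 2) n (g.symm^[j₂] (g^[j₂] y))) :=
          Nat.mul_le_mul_left _ (hK₂ n _)
      _ = C * K₂ * P g ρ (c / 2) n y := by rw [iterL]; ring
  refine ⟨C * K₂ * K₁, fun τ hτ F hFR hFw hFs hFl => ?_⟩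
  -- uniform contraction
  obtain ⟨i, hi⟩ : ∃ i : ℕ, ∀ t ∈ F, Lz g ρ (i : ℤ) (τ 0).val t := by
    have h1 : ∀ t, ∃ i : ℕ, t ∈ F → Lz g ρ (i : ℤ) (τ 0).val t := by
      intro t
      by_cases ht : t ∈ F
      · obtain ⟨i, hi⟩ := exists_lz hρ0 (hFw t ht)
        exact ⟨i, fun _ => hi⟩
      · exact ⟨0, fun h => absurd h ht⟩
    choose i hi using h1
    exact ⟨F.sup i, fun t ht => (hi t ht).mono (by exact_mod_cast Finset.le_sup (f := i) ht)⟩
  obtain ⟨b, hb⟩ := pw (c := c) hρ0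
  have hm : ∃ m : ℕ, ∀ t ∈ F, ∀ p, SR g.symm ρ t p → ∀ Δ : C(I, Pr g.symm), Over τ Δ →
      (Δ 0).y = p → ∀ r, SR g θ (g^[m] p) (g^[m] (Δ r).y) := by
    have hcl : IsClosed (⋃ t ∈ F, {p | SR g.symm ρ t p}) :=
      isClosed_biUnion_finset fun t _ => closed_sr g.symm ρ t
    have hlz : ∀ y ∈ (⋃ t ∈ F, {p | SR g.symm ρ t p}), Lz g ρ ((i : ℤ) + b) (τ 0).val y := by
      intro y hy
      simp only [mem_iUnion] at hy
      obtain ⟨t, ht, hty⟩ := hy
      have : SR g.symm ρ t y := hty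
      exact lz_tri hg (by linarith) hb (hi t ht) ((lz_zero.2 this).mono (by omega))
    obtain ⟨j, m, h⟩ := compact_lift hg hc₁ hs' hρ0 (show 2 * ρ ≤ c by linarith) τ hcl
      (i := (i : ℤ) + b + b) (fun y hy y' hy' => lz_tri hg (by linarith) hb (hlz y hy).symm
        (hlz y' hy')) (fun y hy => by
        simp only [mem_iUnion] at hy
        obtain ⟨t, ht, hty⟩ := hy
        obtain ⟨q, hq, -⟩ := hFl t ht y hty
        exact ⟨q, hq⟩) hθ
    refine ⟨m, fun t ht p hp Δ h1 h2 r => (h p ?_ Δ h1 h2).2 m le_rfl r⟩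
    simp only [mem_iUnion]
    exact ⟨t, ht, hp⟩
  obtain ⟨n, hn⟩ := hm
  have hG : ∀ t : X, ∃ G : Finset X, Val g ρ (c / 2) n t G ∧ G.card = P g ρ (c / 2) n t :=
    fun t => P_att g ρ (show 0 < c / 2 by linarith) n _
  choose G hG hGc using hG
  set Ft : Finset X := F.biUnion G with hFt
  obtain ⟨Δ₀, -, -⟩ := strip_const' τ
  have hT : ∀ q, ∃ T : C(I, Pr g.symm), q ∈ Ft → Over τ T ∧ (T 0).y = q ∧
      Lz g ρ K (τ 1).val (T 1).y ∧ ∀ r, SR g θ (g^[n] (T 0).y) (g^[n] (T r).y) := by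
    intro q
    by_cases hq : q ∈ Ft
    · rw [hFt, Finset.mem_biUnion] at hq
      obtain ⟨t, ht, hqt⟩ := hq
      obtain ⟨z, ⟨T, h1, h2, h3⟩, h4⟩ := hFl t ht q ((hG t).1 q hqt)
      refine ⟨T, fun _ => ⟨h1, h2, by rw [h3]; exact h4, fun r => ?_⟩⟩
      rw [h2]
      exact hn t ht q ((hG t).1 q hqt) T h1 h2 r
    · exact ⟨Δ₀, fun h => absurd h hq⟩
  choose T hT using hT
  set x₁ := g.symm^[K] (τ 1).val with hx₁
  set ψ : X → X := fun q => g.symm^[K] (T q 1).y with hψ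
  have hψr : ∀ q ∈ Ft, SR g.symm ρ x₁ (ψ q) := fun q hq => lz_nat.1 (hT q hq).2.2.1
  have hclose : ∀ q ∈ Ft, ∀ q' ∈ Ft,
      (∀ k ≤ n + (K + b₂), dist (g^[k] (ψ q)) (g^[k] (ψ q')) ≤ c / 2) →
      SR g.symm (c / 3) (g^[n] q) (g^[n] q') := by
    intro q hq q' hq' hd
    obtain ⟨t1, t2, t3, t4⟩ := hT q hq
    obtain ⟨u1, u2, u3, u4⟩ := hT q' hq'
    have f1 : SR g.symm c (ψ q) (ψ q') :=
      (sr_tr (hψr q hq).symm' (hψr q' hq')).mono (by linarith)
    have f2 := sr_of g (m := n + (K + b₂)) (fun k hk => (hd k hk).trans (by linarith)) f1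
    have f3 : ∀ y : X, g^[n + (K + b₂)] (g.symm^[K] y) = g^[n + b₂] y := fun y => by
      rw [fw' g (show K ≤ n + (K + b₂) by omega)]
      congr 1
      omega
    have f4 : SR g.symm c (g^[n + b₂] (T q 1).y) (g^[n + b₂] (T q' 1).y) := by
      rw [← f3, ← f3]
      exact f2
    have f5 := sr_back hg hb₂ f4
    rw [bk g (by omega), bk g (by omega), Nat.add_sub_cancel] at f5
    have f6 := hsepl τ (T q) (T q') n t1 u1 t4 f5
    rwa [t2, u2] at f6
  have hpp : ∀ t ∈ F, ∀ t' ∈ F, t ≠ t' → ∀ q ∈ G t, ∀ q' ∈ G t', ∃ i : ℕ,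
      c / 3 < dist (g.symm^[i] q) (g.symm^[i] q') := by
    intro t ht t' ht' hne q hq q' hq'
    by_contra hcon
    push Not at hcon
    have h1 : SR g.symm (c / 3) q q' := hcon
    exact hFs t ht t' ht' hne ((sr_tr (sr_tr ((hG t).1 q hq) h1) ((hG t').1 q' hq').symm').mono
      (by linarith))
  have hsep : ∀ q ∈ Ft, ∀ q' ∈ Ft, q ≠ q' → ∃ k ≤ n + (K + b₂),
      c / 2 < dist (g^[k] (ψ q)) (g^[k] (ψ q')) := by
    intro q hq q' hq' hne
    by_contra hcon2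
    push Not at hcon2
    have h1 := hclose q hq q' hq' hcon2
    rw [hFt, Finset.mem_biUnion] at hq hq'
    obtain ⟨p, hp, hqp⟩ := hq
    obtain ⟨p', hp', hqp'⟩ := hq'
    by_cases hpe : p = p'
    · subst hpe
      obtain ⟨k, hk, h2⟩ := (hG p).2 q hqp q' hqp' hne
      have h3 := h1 (n - k)
      rw [bk g (by omega), bk g (by omega), show n - (n - k) = k by omega] at h3
      linarith
    · obtain ⟨i, hi⟩ := hpp p hp p' hp' hpe q hqp q' hqp'
      have h3 := h1 (n + i)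
      rw [bk' g (by omega), bk' g (by omega), show n + i - n = i by omega] at h3
      linarith
  have hinj : Set.InjOn ψ Ft := by
    intro p hp p' hp' he
    by_contra hne
    obtain ⟨k, -, hk⟩ := hsep p hp p' hp' hne
    rw [he, dist_self] at hk
    linarith
  have hval : Val g ρ (c / 2) (n + (K + b₂)) x₁ (Ft.image ψ) := by
    constructor
    · intro y hy
      obtain ⟨q, hq, rfl⟩ := Finset.mem_image.mp hy
      exact hψr q hq
    · intro y hy y' hy' hne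
      obtain ⟨q, hq, rfl⟩ := Finset.mem_image.mp hy
      obtain ⟨q', hq', rfl⟩ := Finset.mem_image.mp hy'
      exact hsep q hq q' hq' fun e => hne (by rw [e])
  have hcard : Ft.card = ∑ p ∈ F, P g ρ (c / 2) n p := by
    rw [hFt, Finset.card_biUnion]
    · exact Finset.sum_congr rfl fun p _ => hGc p
    · intro p hp p' hp' hne
      show Disjoint (G p) (G p')
      rw [Finset.disjoint_left]
      intro q hq hq'
      obtain ⟨i, hi⟩ := hpp p hp p' hp' hne q hq q hq'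
      rw [dist_self] at hi
      linarith
  have hx₁R : x₁ ∈ R := (hinv' _ _).mpr (hR.1.sat _ hτ _ (path_ws hg τ 0 1))
  set ν := P g ρ (c / 2) n x₁ with hν
  have hν1 : 1 ≤ ν := one_le_P g (by linarith) (by linarith) n x₁
  have k1 : F.card * ν ≤ C * K₂ * Ft.card := by
    rw [hcard, Finset.mul_sum, ← smul_eq_mul, ← Finset.sum_const]
    exact Finset.sum_le_sum fun p hp => hcmp n x₁ hx₁R p (hFR p hp)
  have k2 : Ft.card ≤ K₁ * ν := by
    rw [← Finset.card_image_of_injOn hinj]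
    exact (P_le (by linarith) hval).trans (hK₁ _ _)
  have k3 : F.card * ν ≤ C * K₂ * K₁ * ν :=
    k1.trans ((Nat.mul_le_mul_left _ k2).trans (le_of_eq (by ring)))
  exact Nat.le_of_mul_le_mul_right k3 hν1

end Pool.Agent.Y330.N
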