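import Pool.Agent.Y330.N.A4

set_option autoImplicit false
set_option linter.unusedSectionVars false

open Filter Topology Set Metric unitInterval

namespace Pool.Agent.Y330.N

open Pool.Agent.H789R2.AN Pool.Agent.H789R2.GP Pool.Agent.TH304.K289 Pool.Agent.TH289.L
open Pool.Agent.Y330.G Pool.Agent.Y330.H

variable {X : Type*} [MetricSpace X] [CompactSpace X] {g : X ≃ₜ X} {c : ℝ}

/-- many separated points of the repeller in every ball -/
theorem many [ConnectedSpace X] [Nontrivial X] (hg : LP g c) (hX : ULC X) {R : Set X}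
    (hR : MinAtt g.symm R) {ρ : ℝ} (hρ0 : 0 < ρ) (L : ℕ) : ∃ j : ℕ, ∀ r ∈ R, ∃ F : Finset X,
      (∀ y ∈ F, y ∈ R ∧ SR g.symm ρ r y) ∧
      (∀ y ∈ F, ∀ y' ∈ F, y ≠ y' → ¬ SR g.symm c (g^[j] y) (g^[j] y')) ∧ F.card = L := by
  classical
  have hc := hg.c_pos
  obtain ⟨b, hb⟩ := pw (c := c) hρ0
  obtain ⟨j', hj'⟩ := rep_many hg hX hR L
  have hinv : ∀ (J : ℕ) (z : X), g^[J] z ∈ R ↔ z ∈ R := fun J z =>
    inv_iter (fun x => by rw [← hR.1.inv (g x), g.symm_apply_apply]) J z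
  have hinv' : ∀ (J : ℕ) (z : X), g.symm^[J] z ∈ R ↔ z ∈ R := fun J z => inv_iter hR.1.inv J z
  refine ⟨b + (j' + 1), fun r hr => ?_⟩
  obtain ⟨F', h1, h2, h3⟩ := hj' (g^[b] r) ((hinv _ _).mpr hr)
  refine ⟨F'.image (g.symm^[b]), ?_, ?_, ?_⟩
  · intro y hy
    obtain ⟨z, hz, rfl⟩ := Finset.mem_image.mp hy
    refine ⟨(hinv' _ _).mpr (h1 z hz).1, ?_⟩
    have := sr_back hg hb ((h1 z hz).2.mono (show c / 4 ≤ c by linarith))
    rwa [iterL] at this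
  · intro y hy y' hy' hne hcon
    obtain ⟨z, hz, rfl⟩ := Finset.mem_image.mp hy
    obtain ⟨z', hz', rfl⟩ := Finset.mem_image.mp hy'
    rw [fw' g (by omega), fw' g (by omega), show b + (j' + 1) - b = j' + 1 by omega] at hcon
    obtain ⟨k, hk, h4⟩ := h2 z hz z' hz' fun e => hne (by rw [e])
    have h5 := hg.cU _ _ hcon (j' + 1 - k)
    rw [bk g (by omega), bk g (by omega), show j' + 1 - (j' + 1 - k) = k by omega] at h5
    have h6 := pw_anti hc (show 1 ≤ j' + 1 - k by omega)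
    rw [pow_one] at h6
    linarith
  · rw [Finset.card_image_of_injective _ (g.symm.injective.iterate _), h3]

theorem not_lz_of {ρ : ℝ} (hρ : ρ ≤ c) {j : ℕ} {y y' : X}
    (h : ¬ SR g.symm c (g^[j] y) (g^[j] y')) : ¬ Lz g ρ (-(j : ℤ)) y y' := by
  intro hcon
  rw [lz_iff, neg_neg, zp_nat, zp_nat] at hcon
  exact h (SR.mono hcon hρ)

/-- points at a definite distance -/
theorem sphere_pt [ConnectedSpace X] [Nontrivial X] (hg : LP g c) (hX : ULC X) {R : Set X}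
    (hR : MinAtt g.symm R) {ρ : ℝ} (hρ0 : 0 < ρ) (hρ : 2 * ρ ≤ c) : ∃ j : ℕ, ∀ r ∈ R, ∃ y,
      Lz g ρ 0 r y ∧ ¬ Lz g ρ (-(j : ℤ)) r y := by
  classical
  have hc := hg.c_pos
  obtain ⟨b, hb⟩ := pw (c := c) hρ0
  obtain ⟨j, hj⟩ := many hg hX hR hρ0 2
  refine ⟨j + b, fun r hr => ?_⟩
  obtain ⟨F, h1, h2, h3⟩ := hj r hr
  obtain ⟨y, z, hyz, hF⟩ := Finset.card_eq_two.1 h3
  have hy : y ∈ F := by rw [hF]; simp
  have hz : z ∈ F := by rw [hF]; simp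
  by_contra hcon
  push Not at hcon
  have e1 := hcon y (lz_zero.2 (h1 y hy).2)
  have e2 := hcon z (lz_zero.2 (h1 z hz).2)
  have e3 := lz_tri hg hρ hb e1.symm e2
  refine not_lz_of (show ρ ≤ c by linarith) (h2 y hy z hz hyz) (e3.mono ?_)
  push_cast
  omega

/-- paths in balls -/
theorem ball_path (hg : LP g c) (hX : ULC X) {ρ : ℝ} (hρ0 : 0 < ρ) (hρ : ρ ≤ c) : ∃ b' : ℕ,
    ∀ (E : ℕ) (x q : X), Lz g ρ E x q → ∃ w : C(I, SM g.symm), (w 0).val = x ∧ (w 1).val = q ∧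
      ∀ t, Lz g ρ ((b' : ℤ) + E) x (w t).val := by
  obtain ⟨η₁, hη₁, hpath⟩ := leaf_path hg.symm hX ρ hρ0
  obtain ⟨b, hb⟩ := pw (c := c) hη₁
  refine ⟨b, fun E x q hq => ?_⟩
  have e4 := sr_back hg hb (SR.mono (lz_nat.1 hq) hρ)
  obtain ⟨w', h1, h2, h3⟩ := hpath ⟨g.symm^[b] (g.symm^[E] x)⟩ ⟨g.symm^[b] (g.symm^[E] q)⟩
    ((SM.dist_le _ _ hη₁.le).2 e4)
  obtain ⟨w, hw⟩ := path_push (b + E) w'
  have hr : ∀ y : X, g^[b + E] (g.symm^[b] (g.symm^[E] y)) = y := fun y => by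
    rw [← Function.iterate_add_apply g.symm b E, iterR]
  refine ⟨w, by rw [hw, h1, hr], by rw [hw, h2, hr], fun t => ?_⟩
  have : Lz g ρ ((b + E : ℕ) : ℤ) x (w t).val := by
    rw [lz_nat]
    unfold Lv
    rw [hw, iterL, Function.iterate_add_apply]
    exact (SM.dist_le _ _ hρ0.le).1 (h3 t)
  push_cast at this
  exact this

/-- If the image of the sphere is far then the image of the ball contains a large ball. -/
theorem onto_lemma (hg : LP g c) (hX : ULC X) {c₁ : ℝ} (hc₁ : 0 < c₁) (hs' : Sl g.symm c c₁)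
    {ρ : ℝ} (hρ0 : 0 < ρ) (hρ : 2 * ρ ≤ c) : ∃ ε₁ > 0, ∃ b' : ℕ,
      (∀ x y : X, SR g.symm ρ x y → dist x y < ε₁ → SR g.symm (ρ / 2) x y) ∧
      ∀ (τ : C(I, SM g)) (E : ℕ), (∀ y, SR g.symm ρ (τ 0).val y → ∃ p, Lft g τ y p) →
      (∀ y p, SR g.symm ρ (τ 0).val y → ε₁ ≤ dist (τ 0).val y → Lft g τ y p →
        ¬ Lz g ρ ((b' : ℤ) + E) (τ 1).val p) →
      ∀ q, Lz g ρ E (τ 1).val q → ∃ y, SR g.symm ρ (τ 0).val y ∧ Lft g τ y q := by
  have hc := hg.c_pos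
  obtain ⟨b, hb⟩ := pw (c := c) hρ0
  obtain ⟨ε₁, hε₁, h1⟩ := qs_SR_of_dist hg.symm (ρ / 2) (half_pos hρ0)
  obtain ⟨b', hb'⟩ := ball_path hg hX hρ0 (show ρ ≤ c by linarith)
  refine ⟨ε₁, hε₁, b', fun x y h => h1 x y (h.mono (by linarith)), fun τ E hL hE q hq => ?_⟩
  obtain ⟨w, hw0, hw1, hw⟩ := hb' E _ q hq
  obtain ⟨j, m, hjm⟩ := compact_lift hg hc₁ hs' hρ0 hρ τ (closed_sr g.symm ρ (τ 0).val)
    (i := 0 + b) (fun y hy y' hy' => lz_tri hg hρ hb (lz_zero.2 hy).symm (lz_zero.2 hy')) hL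
    (half_pos hc₁)
  obtain ⟨η, hη, hsl⟩ := hs'.tr (ρ / 2) (half_pos hρ0) m
  have hu : UniformContinuous w := CompactSpace.uniformContinuous_of_continuous w.continuous
  rw [Metric.uniformContinuous_iff] at hu
  obtain ⟨δ, hδ, hwδ⟩ := hu η hη
  have hall : ∀ t : I, ∃ y, SR g.symm ρ (τ 0).val y ∧ Lft g τ y (w t).val := by
    refine interval_induct (S := fun t => ∃ y, SR g.symm ρ (τ 0).val y ∧ Lft g τ y (w t).val) hδ
      ⟨(τ 0).val, sr_refl g.symm hρ0.le _, by rw [hw0]; exact Lft.base τ⟩ ?_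
    intro t ht t' htt
    obtain ⟨y, hy, hyl⟩ := ht t le_rfl
    have hy2 : SR g.symm (ρ / 2) (τ 0).val y := by
      apply h1 _ _ (hy.mono (by linarith))
      by_contra hcon
      push Not at hcon
      exact hE y _ hy hcon hyl (hw t)
    obtain ⟨Δ, a1, a2, a3⟩ := hyl
    obtain ⟨Δr, b1, b2⟩ := over_rev a1
    obtain ⟨υ, hυ⟩ := side Δr
    have hlev : ∀ r, SR g c₁ (g^[m] (υ 0).val) (g^[m] (υ r).val) := by
      intro r
      have e1 := (hjm y hy Δ a1 a2).2 m le_rfl (σ 0)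
      have e2 := (hjm y hy Δ a1 a2).2 m le_rfl (σ r)
      rw [hυ, hυ, b2, b2]
      exact (sr_tr e1.symm' e2).mono (by linarith)
    obtain ⟨Γ, f1, f2, f3, -⟩ := hsl υ (w t').val (by
      rw [hυ, b2, unitInterval.symm_zero, a3]
      exact (SM.dist_le _ _ hη.le).mp (hwδ htt).le) hlev
    obtain ⟨Δ', k1, k2⟩ := over_comp b1 hυ f2
    obtain ⟨Δ'', k3, k4⟩ := over_rev k1
    rw [rev_rev] at k3
    refine ⟨(Δ'' 0).y, ?_, Δ'', k3, rfl, ?_⟩
    · rw [k4, unitInterval.symm_zero, k2]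
      have := f3 1
      rw [hυ, b2, unitInterval.symm_one, a2] at this
      exact (sr_tr hy2 this).mono (by linarith)
    · rw [k4, unitInterval.symm_one, k2, f1]
  obtain ⟨y, hy, hyl⟩ := hall 1
  exact ⟨y, hy, by rwa [hw1] at hyl⟩

/-- the image of the sphere about a point of the repeller is not far -/
theorem onto_count [ConnectedSpace X] [Nontrivial X] (hg : LP g c) (hX : ULC X) {c₁ : ℝ}
    (hc₁ : 0 < c₁) (hs : Sl g c c₁) (hs' : Sl g.symm c c₁) {ρ : ℝ} (hρ0 : 0 < ρ)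
    (hρc : ρ ≤ c / 4) {R : Set X} (hR : MinAtt g.symm R) : ∃ ε₁ > 0, ∃ J : ℕ,
      (∀ x y : X, SR g.symm ρ x y → dist x y < ε₁ → SR g.symm (ρ / 2) x y) ∧
      ∀ τ : C(I, SM g), (τ 0).val ∈ R → (∀ y, SR g.symm ρ (τ 0).val y → ∃ p, Lft g τ y p) →
      ∃ y p, SR g.symm ρ (τ 0).val y ∧ ε₁ ≤ dist (τ 0).val y ∧ Lft g τ y p ∧
        Lz g ρ J (τ 1).val p := by
  classical
  have hc := hg.c_pos
  have hinv : ∀ (J : ℕ) (z : X), g^[J] z ∈ R ↔ z ∈ R := fun J z =>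
    inv_iter (fun x => by rw [← hR.1.inv (g x), g.symm_apply_apply]) J z
  have hinv' : ∀ (J : ℕ) (z : X), g.symm^[J] z ∈ R ↔ z ∈ R := fun J z => inv_iter hR.1.inv J z
  have hρ : 2 * ρ ≤ c := by linarith
  obtain ⟨b, hb⟩ := pw (c := c) hρ0
  obtain ⟨ε₁, hε₁, b', h1, h2⟩ := onto_lemma hg hX hc₁ hs' hρ0 hρ
  obtain ⟨N, hN⟩ := into_count hg hX hc₁ hs hs' hρ0 hρc hR 0
  obtain ⟨j, hj⟩ := many hg hX hR hρ0 (N + 1)
  refine ⟨ε₁, hε₁, b' + (j + b), h1, fun τ hτ hL => ?_⟩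
  by_contra hcon
  push Not at hcon
  have h3 := h2 τ (j + b) hL (fun y p a1 a2 a3 => by
    have := hcon y p a1 a2 a3
    push_cast at this ⊢
    exact this)
  have hτ1 : (τ 1).val ∈ R := hR.1.sat _ hτ _ (path_ws hg τ 0 1)
  obtain ⟨F, f1, f2, f3⟩ := hj (g.symm^[j] (τ 1).val) ((hinv' _ _).mpr hτ1)
  have hlz : ∀ y ∈ F, Lz g ρ (j : ℤ) (τ 1).val (g^[j] y) := by
    intro y hy
    rw [lz_nat]
    unfold Lv
    rw [iterL]
    exact (f1 y hy).2
  have h4 := hN (rev τ) (by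
      rw [rev_apply, unitInterval.symm_zero]
      exact hτ1) (F.image (g^[j])) (fun t ht => by
      obtain ⟨y, hy, rfl⟩ := Finset.mem_image.mp ht
      exact (hinv _ _).mpr (f1 y hy).1) (fun t ht => by
      obtain ⟨y, hy, rfl⟩ := Finset.mem_image.mp ht
      rw [rev_apply, unitInterval.symm_zero]
      exact (hlz y hy).ws hg (by linarith)) (fun t ht t' ht' hne => by
      obtain ⟨y, hy, rfl⟩ := Finset.mem_image.mp ht
      obtain ⟨y', hy', rfl⟩ := Finset.mem_image.mp ht'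
      exact f2 y hy y' hy' fun e => hne (by rw [e])) (fun t ht p hp => by
      obtain ⟨y, hy, rfl⟩ := Finset.mem_image.mp ht
      have e1 : Lz g ρ ((j : ℤ) + b) (τ 1).val p :=
        lz_tri hg hρ hb (hlz y hy) ((lz_zero.2 hp).mono (by omega))
      obtain ⟨y', g1, g2⟩ := h3 p (by push_cast; exact e1)
      refine ⟨y', g2.rev, ?_⟩
      rw [rev_apply, unitInterval.symm_one]
      exact lz_zero.2 g1)
  rw [Finset.card_image_of_injective _ (g.injective.iterate _), f3] at h4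
  omega

end Pool.Agent.Y330.N
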