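import Pool.Agent.Y330.N.A5

set_option autoImplicit false
set_option linter.unusedSectionVars false

open Filter Topology Set Metric unitInterval

namespace Pool.Agent.Y330.N

open Pool.Agent.H789R2.AN Pool.Agent.H789R2.GP Pool.Agent.TH304.K289 Pool.Agent.TH289.L
open Pool.Agent.Y330.G Pool.Agent.Y330.H

variable {X : Type*} [MetricSpace X] [CompactSpace X] {g : X ≃ₜ X} {c : ℝ}

/-- the stable holonomies have bounded distortion of the cross ratios of the quadruples with first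
point in `S` -/
def QM (g : X ≃ₜ X) (ρ : ℝ) (S : Set X) : Prop := ∀ i : ℤ, ∃ k : ℤ, ∀ (τ : C(I, SM g))
  (x y z w x' y' z' w' : X), x ∈ S → Lft g τ x x' → Lft g τ y y' → Lft g τ z z' → Lft g τ w w' →
    x ≠ y → z ≠ w → x ≠ z → y ≠ w →
    lev g ρ x y + lev g ρ z w ≤ lev g ρ x z + lev g ρ y w + i →
    lev g ρ x' y' + lev g ρ z' w' ≤ lev g ρ x' z' + lev g ρ y' w' + k

/-- the point `y` is blocked at time `s₁` -/
def Blk (g : X ≃ₜ X) (τ : C(I, SM g)) (s₁ : I) (y : X) : Prop :=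
  (∀ s < s₁, ∃ p, Lft g (stop τ s) y p) ∧ ¬ ∃ p, Lft g (stop τ s₁) y p

theorem stop_zero_apply (τ : C(I, SM g)) (s : I) : stop τ s 0 = τ 0 := by
  rw [stop_apply, min_eq_left (unitInterval.nonneg' : 0 ≤ s)]

theorem stop_one_apply (τ : C(I, SM g)) (s : I) : stop τ s 1 = τ s := by
  rw [stop_apply, min_eq_right (unitInterval.le_one' : s ≤ 1)]

theorem lift_zero {τ : C(I, SM g)} {y : X} (h : WS g.symm (τ 0).val y) :
    Lft g (stop τ 0) y y := by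
  refine ⟨ContinuousMap.const I ⟨(τ 0).val, y, h⟩, fun r => ?_, rfl, rfl⟩
  rw [stop_apply, min_eq_right (unitInterval.nonneg' : 0 ≤ r)]
  rfl

theorem Blk.far (hg : LP g c) (hX : ULC X) {c₁ : ℝ} (hc₁ : 0 < c₁) (hs : Sl g c c₁) {ρ : ℝ}
    (hρ : ρ ≤ c) {τ : C(I, SM g)} {s₁ : I} {y : X} (h : Blk g τ s₁ y)
    (hy : WS g.symm (τ 0).val y) (j : ℕ) : ∃ s₀ < s₁, ∀ s, s₀ ≤ s → s < s₁ →
      ∀ p, Lft g (stop τ s) y p → ¬ Lz g ρ j (τ s).val p := by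
  obtain ⟨δ, hδ, h1⟩ := cont_lift hg hX hc₁ hs hρ τ j
  have hs0 : 0 < s₁ := by
    rw [unitInterval.pos_iff_ne_zero]
    rintro rfl
    exact h.2 ⟨y, lift_zero hy⟩
  have hs0' : (0 : ℝ) < s₁ := hs0
  set r : ℝ := max 0 ((s₁ : ℝ) - δ / 2) with hr
  have hr0 : 0 ≤ r := le_max_left _ _
  have hr1 : r < s₁ := max_lt hs0' (by linarith)
  have hr2 : (s₁ : ℝ) - δ / 2 ≤ r := le_max_right _ _
  refine ⟨⟨r, hr0, hr1.le.trans s₁.2.2⟩, hr1, fun s hs1 hs2 p hp hl => ?_⟩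
  have hs1' : r ≤ (s : ℝ) := hs1
  have hs2' : (s : ℝ) < s₁ := hs2
  refine h.2 (h1 s s₁ hs2.le ?_ y p hp hl)
  rw [Subtype.dist_eq, Real.dist_eq, abs_sub_comm, abs_of_nonneg (by linarith)]
  linarith

/-- the first blocking time -/
theorem first_block (hg : LP g c) (hX : ULC X) {c₁ : ℝ} (hc₁ : 0 < c₁) (hs : Sl g c c₁)
    (hs' : Sl g.symm c c₁) {ρ : ℝ} (hρ0 : 0 < ρ) (hρ : 2 * ρ ≤ c) (τ : C(I, SM g)) {U : Set X}
    (hU : IsClosed U) {i : ℤ} (hUi : ∀ y ∈ U, ∀ y' ∈ U, Lz g ρ i y y')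
    (hb : ∃ y ∈ U, ¬ ∃ p, Lft g τ y p) : ∃ s₁ : I, (∃ φ ∈ U, ¬ ∃ p, Lft g (stop τ s₁) φ p) ∧
      ∀ s < s₁, ∀ y ∈ U, ∃ p, Lft g (stop τ s) y p := by
  classical
  set S : I → Prop := fun s => ∀ y ∈ U, ∃ p, Lft g (stop τ s) y p with hS
  have hdown : ∀ s s', s' ≤ s → S s → S s' := fun s s' hss h y hy => by
    obtain ⟨p, hp⟩ := h y hy
    exact hp.stop_le hss
  have hS1 : ¬ S 1 := by
    intro h
    obtain ⟨y, hy, hn⟩ := hb
    obtain ⟨p, hp⟩ := h y hy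
    rw [stop_one] at hp
    exact hn ⟨p, hp⟩
  have hopen : ∀ s, S s → ∃ δ > 0, ∀ s', s ≤ s' → dist s s' < δ → S s' := by
    intro s h
    obtain ⟨j, m, hjm⟩ := compact_lift hg hc₁ hs' hρ0 hρ (stop τ s) hU hUi h hc₁
    obtain ⟨δ, hδ, h1⟩ := cont_lift hg hX hc₁ hs (show ρ ≤ c by linarith) τ j
    refine ⟨δ, hδ, fun s' hss hd y hy => ?_⟩
    obtain ⟨p, Δ, a1, a2, a3⟩ := h y hy
    have := (hjm y hy Δ a1 a2).1 1
    rw [a3, stop_one_apply] at this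
    exact h1 s s' hss hd y p ⟨Δ, a1, a2, a3⟩ this
  set B : Set ℝ := {r | ∃ s : I, (s : ℝ) = r ∧ ¬ S s} with hB
  have hBne : B.Nonempty := ⟨1, 1, rfl, hS1⟩
  have hBbd : BddBelow B := ⟨0, by rintro r ⟨s, rfl, -⟩; exact s.2.1⟩
  have hr0 : 0 ≤ sInf B := le_csInf hBne (by rintro r ⟨s, rfl, -⟩; exact s.2.1)
  have hr1 : sInf B ≤ 1 := csInf_le hBbd ⟨1, rfl, hS1⟩
  refine ⟨⟨sInf B, hr0, hr1⟩, ?_, ?_⟩
  · by_contra hcon
    push Not at hcon
    have hSs : S ⟨sInf B, hr0, hr1⟩ := hcon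
    obtain ⟨δ, hδ, h1⟩ := hopen _ hSs
    have h2 : sInf B + δ ≤ sInf B := by
      refine le_csInf hBne ?_
      rintro r ⟨s, rfl, hs1⟩
      by_contra hlt
      push Not at hlt
      apply hs1
      rcases le_total s ⟨sInf B, hr0, hr1⟩ with h3 | h3
      · exact hdown _ _ h3 hSs
      · refine h1 s h3 ?_
        have h3' : sInf B ≤ (s : ℝ) := h3
        rw [Subtype.dist_eq, Real.dist_eq, abs_sub_comm, abs_of_nonneg (by
          show 0 ≤ (s : ℝ) - sInf B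
          linarith)]
        show (s : ℝ) - sInf B < δ
        linarith
    linarith
  · intro s hs1
    by_contra hcon
    have : sInf B ≤ (s : ℝ) := csInf_le hBbd ⟨s, rfl, hcon⟩
    have h2 : (s : ℝ) < sInf B := hs1
    linarith

theorem lz_stop {ρ : ℝ} {τ : C(I, SM g)} {Δ : C(I, Pr g.symm)} (h : Over τ Δ) {j : ℤ}
    (hj : ∀ r, Lz g ρ j (τ r).val (Δ r).y) (hg : LP g c) {s : I} {p : X}
    (hp : Lft g (stop τ s) (Δ 0).y p) : Lz g ρ j (τ s).val p := by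
  have h1 : Lft g (stop τ s) (Δ 0).y (Δ (min 1 s)).y :=
    ⟨⟨fun r => Δ (min r s), by fun_prop⟩, fun r => h _, by
      show (Δ (min 0 s)).y = _
      rw [min_eq_left (unitInterval.nonneg' : 0 ≤ s)], rfl⟩
  rw [hp.unique hg h1, min_eq_right (unitInterval.le_one' : s ≤ 1)]
  exact hj s

/-- at most one point is blocked at a given time -/
theorem blk_unique [ConnectedSpace X] [Nontrivial X] (hg : LP g c) (hX : ULC X) {c₁ : ℝ}
    (hc₁ : 0 < c₁) (hs : Sl g c c₁) (hs' : Sl g.symm c c₁) {ρ : ℝ} (hρ0 : 0 < ρ) (hρ : 2 * ρ ≤ c)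
    {S : Set X} (hQ : QM g ρ S) {τ : C(I, SM g)} (hτS : (τ 0).val ∈ S) {s₁ : I} {y z : X} (hy : Blk g τ s₁ y) (hz : Blk g τ s₁ z)
    (hy0 : WS g.symm (τ 0).val y) (hz0 : WS g.symm (τ 0).val z) : y = z := by
  by_contra hne
  obtain ⟨b, hb⟩ := pw (c := c) hρ0
  -- the point near the base
  obtain ⟨Δ₀, o1, o2⟩ := strip_const' τ
  obtain ⟨j₀, η, hη, ho⟩ := open_lift hg hc₁ hs' (τ := τ) (Δ := Δ₀) o1 hρ0
  obtain ⟨w, hw1, hw2⟩ := triv_none hg.symm hX (τ 0).val hη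
  obtain ⟨Δ, a1, a2, a3, -⟩ := ho w (by rw [o2]; exact hw1)
  have hwl : ∀ r, Lz g ρ (0 : ℤ) (τ r).val (Δ r).y := fun r => by
    have := a3 r
    rw [o2] at this
    exact lz_zero.2 this
  have hw : Lft g τ w (Δ 1).y := ⟨Δ, a1, a2, rfl⟩
  have hb0 : ∀ {u : X}, Blk g τ s₁ u → u ≠ (τ 0).val := by
    rintro u hu rfl
    obtain ⟨p, hp⟩ := (Lft.base τ).stop_of s₁
    exact hu.2 ⟨p, hp⟩
  have hbw : ∀ {u : X}, Blk g τ s₁ u → u ≠ w := by
    rintro u hu rfl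
    exact hu.2 (hw.stop_of s₁)
  obtain ⟨k, hk⟩ := hQ (lev g ρ (τ 0).val y + lev g ρ w z - lev g ρ (τ 0).val w - lev g ρ y z)
  set j : ℕ := b + (b + k.natAbs) with hj
  obtain ⟨s₀, hs₀, f1⟩ := hy.far hg hX hc₁ hs (show ρ ≤ c by linarith) hy0 j
  obtain ⟨s₀', hs₀', f2⟩ := hz.far hg hX hc₁ hs (show ρ ≤ c by linarith) hz0 j
  set s := max s₀ s₀' with hsd
  have hss : s < s₁ := max_lt hs₀ hs₀'
  obtain ⟨y', hy'⟩ := hy.1 s hss
  obtain ⟨z', hz'⟩ := hz.1 s hss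
  obtain ⟨w', hw'⟩ := hw.stop_of s
  have hx' : Lft g (stop τ s) (τ 0).val (τ s).val := by
    have := Lft.base (stop τ s)
    rwa [stop_zero_apply, stop_one_apply] at this
  have g1 := f1 s (le_max_left _ _) hss y' hy'
  have g2 := f2 s (le_max_right _ _) hss z' hz'
  have g3 : Lz g ρ 0 (τ s).val w' := lz_stop (s := s) a1 hwl hg (by rw [a2]; exact hw')
  have n1 : (τ s).val ≠ y' := by
    rintro rfl
    exact g1 (Lz.refl hρ0.le _ _)
  have n2 : (τ s).val ≠ z' := by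
    rintro rfl
    exact g2 (Lz.refl hρ0.le _ _)
  have n3 : (τ s).val ≠ w' := by
    intro e
    rw [← e] at hw'
    exact hw2 (hw'.inj hg hx')
  have n4 : w' ≠ z' := by
    intro e
    rw [← e] at hz'
    exact hbw hz (hz'.inj hg hw')
  have n5 : y' ≠ z' := by
    intro e
    rw [← e] at hz'
    exact hne (hy'.inj hg hz')
  have v1 : WS g.symm (τ s).val y' := by
    have := hy'.ws1
    rwa [stop_one_apply] at this
  have v2 : WS g.symm (τ s).val z' := by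
    have := hz'.ws1
    rwa [stop_one_apply] at this
  have v3 : WS g.symm (τ s).val w' := by
    have := hw'.ws1
    rwa [stop_one_apply] at this
  have key := hk (stop τ s) _ y w z _ y' w' z' hτS hx' hy' hw' hz' (hb0 hy).symm (hbw hz).symm
    (fun e => hw2 e.symm) hne (by omega)
  have hρc : ρ ≤ c := by linarith
  rw [lz_lev hg hρ0 hρc n1 v1] at g1
  rw [lz_lev hg hρ0 hρc n2 v2] at g2
  rw [lz_lev hg hρ0 hρc n3 v3] at g3
  have t1 := lev_tri hg hρ0 hρ hb n3 n4 n2 v3 (v3.symm'.trans v2)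
  have t2 := lev_tri hg hρ0 hρ hb n1.symm n2 n5 v1.symm' v2
  rw [lev_comm g ρ y' (τ s).val] at t2
  push_cast at g1 g2
  omega

end Pool.Agent.Y330.N
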