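import Pool.Agent.Y330.N.A6

set_option autoImplicit false
set_option linter.unusedSectionVars false

open Filter Topology Set Metric unitInterval

namespace Pool.Agent.Y330.N

open Pool.Agent.H789R2.AN Pool.Agent.H789R2.GP Pool.Agent.TH304.K289 Pool.Agent.TH289.L
open Pool.Agent.Y330.G Pool.Agent.Y330.H

variable {X : Type*} [MetricSpace X] [CompactSpace X] {g : X ≃ₜ X} {c : ℝ}

/-- the first blocked point is not in the repeller -/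
theorem case_two [ConnectedSpace X] [Nontrivial X] (hg : LP g c) (hX : ULC X) {c₁ : ℝ}
    (hc₁ : 0 < c₁) (hs : Sl g c c₁) (hs' : Sl g.symm c c₁) {ρ : ℝ} (hρ0 : 0 < ρ)
    (hρc : ρ ≤ c / 4) {R : Set X} (hR : MinAtt g.symm R) {τ : C(I, SM g)} {s₁ : I} {φ : X}
    (hφR : φ ∈ R) (hφ : Blk g τ s₁ φ) (hφ0 : WS g.symm (τ 0).val φ)
    (h1 : ∀ y, SR g.symm ρ φ y → y ≠ φ → ∃ p, Lft g (stop τ s₁) y p)
    (h2 : ∀ s < s₁, ∀ y, SR g.symm ρ φ y → ∃ p, Lft g (stop τ s) y p) : False := by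
  have hρ : 2 * ρ ≤ c := by linarith [hg.c_pos]
  obtain ⟨b, hb⟩ := pw (c := c) hρ0
  obtain ⟨ε₁, hε₁, J₁, -, hJ₁⟩ := onto_count hg hX hc₁ hs hs' hρ0 hρc hR
  have hcl : IsClosed ({y | SR g.symm ρ φ y} ∩ {y | ε₁ ≤ dist φ y}) :=
    (closed_sr g.symm ρ φ).inter (isClosed_le continuous_const (continuous_const.dist continuous_id))
  have hne : ∀ y ∈ ({y | SR g.symm ρ φ y} ∩ {y | ε₁ ≤ dist φ y}), y ≠ φ := by
    rintro y hy rfl
    have : ε₁ ≤ dist y y := hy.2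
    rw [dist_self] at this
    linarith
  obtain ⟨j, m, hjm⟩ := compact_lift hg hc₁ hs' hρ0 hρ (stop τ s₁) hcl (i := 0 + b)
    (fun y hy y' hy' => lz_tri hg hρ hb (lz_zero.2 hy.1).symm (lz_zero.2 hy'.1))
    (fun y hy => h1 y hy.1 (hne y hy)) hc₁
  obtain ⟨s, hs₀, f1⟩ := hφ.far hg hX hc₁ hs (show ρ ≤ c by linarith) hφ0 (max j J₁ + b)
  obtain ⟨φ', hφ'⟩ := hφ.1 s hs₀
  obtain ⟨υ, u1, u2, u3, -⟩ := hφ'.rebase'
  obtain ⟨y, p, p1, p2, p3, p4⟩ := hJ₁ υ (by rw [u1]; exact hφR) (fun y hy => by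
    rw [u1] at hy
    obtain ⟨p, hp⟩ := h2 s hs₀ y hy
    exact ⟨p, (u3 _ _).1 hp⟩)
  rw [u1] at p1 p2
  rw [u2] at p4
  have hyK : y ∈ ({y | SR g.symm ρ φ y} ∩ {y | ε₁ ≤ dist φ y}) := ⟨p1, p2⟩
  obtain ⟨q, Δ, a1, a2, a3⟩ := h1 y p1 (hne y hyK)
  have e1 := (hjm y hyK Δ a1 a2).1
  have e2 : Lft g (stop (stop τ s₁) s) (Δ 0).y p := by
    rw [stop_stop τ hs₀.le, a2]
    exact (u3 _ _).2 p3
  have e3 := lz_stop a1 e1 hg e2
  rw [stop_apply, min_eq_left hs₀.le] at e3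
  refine f1 s le_rfl hs₀ φ' hφ' ?_
  have := lz_tri hg hρ hb (i := max (j : ℤ) J₁) (e3.mono (le_max_left _ _))
    (p4.symm.mono (le_max_right _ _))
  push_cast
  exact this

theorem closed_lz (g : X ≃ₜ X) (ρ : ℝ) (i : ℤ) : IsClosed {p : X × X | Lz g ρ i p.1 p.2} := by
  have : {p : X × X | Lz g ρ i p.1 p.2} = ⋂ n : ℤ, ⋂ (_ : i ≤ n),
      {p : X × X | dist ((g ^ (-n)) p.1) ((g ^ (-n)) p.2) ≤ ρ} := by
    ext p
    simp [Lz]
  rw [this]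
  exact isClosed_iInter fun n => isClosed_iInter fun _ => isClosed_le
    (((g ^ (-n)).continuous.comp continuous_fst).dist ((g ^ (-n)).continuous.comp continuous_snd))
    continuous_const

/-- the union of the balls about the points of the repeller -/
def Tub (g : X ≃ₜ X) (ρ : ℝ) (R : Set X) (x : X) (L i : ℤ) : Set X :=
  {y | ∃ t ∈ R, Lz g ρ L x t ∧ Lz g ρ i t y}

theorem closed_tub {ρ : ℝ} {R : Set X} (hR : IsClosed R) (x : X) (L i : ℤ) :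
    IsClosed (Tub g ρ R x L i) := by
  have h1 : IsClosed {p : X × X | p.1 ∈ R ∧ Lz g ρ L x p.1 ∧ Lz g ρ i p.1 p.2} := by
    refine (hR.preimage continuous_fst).inter (IsClosed.inter ?_ (closed_lz g ρ i))
    exact (closed_lz g ρ L).preimage (continuous_const.prodMk continuous_fst)
  have h2 : Tub g ρ R x L i = Prod.snd '' {p : X × X | p.1 ∈ R ∧ Lz g ρ L x p.1 ∧
      Lz g ρ i p.1 p.2} := by
    ext y
    constructor
    · rintro ⟨t, a1, a2, a3⟩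
      exact ⟨(t, y), ⟨a1, a2, a3⟩, rfl⟩
    · rintro ⟨⟨t, y'⟩, ⟨a1, a2, a3⟩, rfl⟩
      exact ⟨t, a1, a2, a3⟩
  rw [h2]
  exact (h1.isCompact.image continuous_snd).isClosed

theorem tub_level (hg : LP g c) {ρ : ℝ} (hρ : 2 * ρ ≤ c) {b : ℕ} (hb : c * (1 / 2) ^ b ≤ ρ)
    {R : Set X} {x : X} {L i : ℤ} (hiL : i ≤ L) {y : X} (hy : y ∈ Tub g ρ R x L i) :
    Lz g ρ (L + b) x y := by
  obtain ⟨t, -, a2, a3⟩ := hy
  exact lz_tri hg hρ hb a2 (a3.mono hiL)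

theorem tub_level2 (hg : LP g c) {ρ : ℝ} (hρ : 2 * ρ ≤ c) {b : ℕ} (hb : c * (1 / 2) ^ b ≤ ρ)
    {R : Set X} {x : X} {L i : ℤ} (hiL : i ≤ L) {y y' : X} (hy : y ∈ Tub g ρ R x L i)
    (hy' : y' ∈ Tub g ρ R x L i) : Lz g ρ (L + b + b) y y' :=
  lz_tri hg hρ hb (tub_level hg hρ hb hiL hy).symm (tub_level hg hρ hb hiL hy')

theorem not_lz_far (hg : LP g c) {ρ ε : ℝ} (hρ : ρ ≤ c) (hε : 0 < ε) {N : ℕ}
    (hN : c * (1 / 2) ^ N ≤ ε / 2) {x y : X} (h : ε ≤ dist x y) : ¬ Lz g ρ (-(N : ℤ)) x y := by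
  intro hcon
  rw [lz_iff, neg_neg, zp_nat, zp_nat] at hcon
  have := hg.cU _ _ (SR.mono hcon hρ) N
  rw [iterL, iterL] at this
  linarith

end Pool.Agent.Y330.N
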