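import Pool.Agent.Y330.N.A7

set_option autoImplicit false
set_option linter.unusedSectionVars false

open Filter Topology Set Metric unitInterval

namespace Pool.Agent.Y330.N

open Pool.Agent.H789R2.AN Pool.Agent.H789R2.GP Pool.Agent.TH304.K289 Pool.Agent.TH289.L
open Pool.Agent.Y330.G Pool.Agent.Y330.H

variable {X : Type*} [MetricSpace X] [CompactSpace X] {g : X ≃ₜ X} {c : ℝ}

theorem lz_shift_iff {ρ : ℝ} {i m : ℤ} {x y : X} :
    Lz g ρ i ((g ^ m) x) y ↔ Lz g ρ (i - m) x ((g ^ (-m)) y) := by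
  rw [← Lz.shift (g := g) (ρ := ρ) (i := i) (m := m), zp_cancel]

theorem mem_zp {R : Set X} (hR : MinAtt g.symm R) (m : ℤ) (x : X) : (g ^ m) x ∈ R ↔ x ∈ R := by
  obtain ⟨n, rfl | rfl⟩ := Int.eq_nat_or_neg m
  · rw [zp_nat]
    exact inv_iter (fun x => by rw [← hR.1.inv (g x), g.symm_apply_apply]) n x
  · rw [zp_neg]
    exact inv_iter hR.1.inv n x

/-- the first blocked point is not outside the repeller -/
theorem case_three [ConnectedSpace X] [Nontrivial X] (hg : LP g c) (hX : ULC X) {c₁ : ℝ}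
    (hc₁ : 0 < c₁) (hs : Sl g c c₁) (hs' : Sl g.symm c c₁) {ρ : ℝ} (hρ0 : 0 < ρ)
    (hρc : ρ ≤ c / 4) {R : Set X} (hQ : QM g ρ R) (hR : MinAtt g.symm R) : ∃ J : ℕ,
      ∀ (τ : C(I, SM g)) (s₁ : I) (φ x₀ : X) (L : ℕ), J ≤ L → (τ 0).val ∈ R → x₀ ∈ R →
      Lz g ρ L (τ 0).val x₀ → Lz g ρ 0 x₀ φ →
      (∀ t ∈ R, Lz g ρ L (τ 0).val t → ¬ Lz g ρ (-1) t φ) →
      (∀ y ∈ Tub g ρ R (τ 0).val L 0, y ≠ φ → ∃ p, Lft g (stop τ s₁) y p) →
      Blk g τ s₁ φ → False := by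
  classical
  have hc := hg.c_pos
  have hρ : 2 * ρ ≤ c := by linarith
  have hρ' : ρ ≤ c := by linarith
  obtain ⟨b, hb⟩ := pw (c := c) hρ0
  obtain ⟨ε₁, hε₁, J₁, -, hJ₁⟩ := onto_count hg hX hc₁ hs hs' hρ0 hρc hR
  obtain ⟨N₁, hN₁⟩ := pw (c := c) (half_pos hε₁)
  obtain ⟨k, hk⟩ := hQ (3 * b + N₁ + (b + 1))
  obtain ⟨N, hN⟩ := into_count hg hX hc₁ hs hs' hρ0 hρc hR (J₁ + 2 * b + k.natAbs + (b + 1))
  obtain ⟨j, hj⟩ := many hg hX hR hρ0 (N + 1)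
  refine ⟨j, fun τ s₁ φ x₀ L hL hτ hx₀ hx₀L hx₀φ hfar hlift hφ => ?_⟩
  set x := (τ 0).val with hx
  have hCL : -((b : ℤ) + 1) ≤ L := by omega
  have hφK : φ ∉ Tub g ρ R x L (-((b : ℤ) + 1)) := by
    rintro ⟨t, a1, a2, a3⟩
    exact hfar t a1 a2 (a3.mono (by omega))
  have hK1 : ∀ y ∈ Tub g ρ R x L (-((b : ℤ) + 1)), ∃ p, Lft g (stop τ s₁) y p := by
    intro y hy
    refine hlift y ?_ (fun e => hφK (e ▸ hy))
    obtain ⟨t, a1, a2, a3⟩ := hy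
    exact ⟨t, a1, a2, a3.mono (by omega)⟩
  obtain ⟨j₀, m, hjm⟩ := compact_lift hg hc₁ hs' hρ0 hρ (stop τ s₁) (closed_tub hR.1.closed x L
    (-((b : ℤ) + 1))) (i := (L : ℤ) + b + b) (fun y hy y' hy' => tub_level2 hg hρ hb hCL hy hy') hK1
    hc₁
  have hφ0 : WS g.symm x φ := (hx₀L.ws hg hρ').trans (hx₀φ.ws hg hρ')
  obtain ⟨s, hss, f1⟩ := hφ.far hg hX hc₁ hs hρ' hφ0 (j₀ + b)
  obtain ⟨φ', hφ'⟩ := hφ.1 s hss
  have hfφ := f1 s le_rfl hss φ' hφ'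
  -- lifts at time `s`
  have hK2 : ∀ y ∈ Tub g ρ R x L (-((b : ℤ) + 1)), ∃ p, Lft g (stop τ s) y p ∧
      Lz g ρ j₀ (τ s).val p := by
    intro y hy
    obtain ⟨q, Δ, a1, a2, a3⟩ := hK1 y hy
    obtain ⟨p, hp⟩ := Lft.stop_le hss.le ⟨Δ, a1, a2, a3⟩
    refine ⟨p, hp, ?_⟩
    have e2 : Lft g (stop (stop τ s₁) s) (Δ 0).y p := by
      rw [stop_stop τ hss.le, a2]
      exact hp
    have e3 := lz_stop a1 (hjm y hy Δ a1 a2).1 hg e2
    rwa [stop_apply, min_eq_left hss.le] at e3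
  have hx₀K : x₀ ∈ Tub g ρ R x L (-((b : ℤ) + 1)) := ⟨x₀, hx₀, hx₀L, Lz.refl hρ0.le _ _⟩
  obtain ⟨x₀', hx₀', -⟩ := hK2 x₀ hx₀K
  obtain ⟨υ, u1, u2, u3, -⟩ := hx₀'.rebase'
  -- the sphere point
  obtain ⟨y, p, p1, p2, p3, p4⟩ := hJ₁ (zpath (b + 1) υ) (by
      rw [zpath_apply, u1, mem_zp hR]
      exact hx₀) (fun y hy => by
      rw [zpath_apply, u1, ← lz_zero, lz_shift_iff] at hy
      obtain ⟨p, hp, -⟩ := hK2 ((g ^ (-((b : ℤ) + 1))) y) ⟨x₀, hx₀, hx₀L, hy.mono (by omega)⟩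
      have := ((u3 _ _).1 hp).shift ((b : ℤ) + 1)
      rw [zp_cancel] at this
      exact ⟨_, this⟩)
  rw [zpath_apply, u1] at p1 p2
  rw [zpath_apply, u2] at p4
  set y₁ := (g ^ (-((b : ℤ) + 1))) y with hy₁
  set q₁ := (g ^ (-((b : ℤ) + 1))) p with hq₁
  have hyy : y = (g ^ ((b : ℤ) + 1)) y₁ := by rw [hy₁, zp_cancel]
  have hq₁l : Lft g (stop τ s) y₁ q₁ := by
    rw [u3, hq₁]
    rw [hyy] at p3
    exact p3.unshift _
  have l1 : Lz g ρ (-((b : ℤ) + 1)) x₀ y₁ := by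
    have := lz_shift_iff.1 (lz_zero.2 p1)
    exact this.mono (by omega)
  have l2 : ¬ Lz g ρ (-(N₁ : ℤ) - (b + 1)) x₀ y₁ := by
    intro hcon
    refine not_lz_far hg hρ' hε₁ hN₁ p2 ?_
    rw [lz_shift_iff]
    exact hcon
  have l3 : Lz g ρ ((J₁ : ℤ) - (b + 1)) x₀' q₁ := lz_shift_iff.1 p4
  have hy₁K : y₁ ∈ Tub g ρ R x L (-((b : ℤ) + 1)) := ⟨x₀, hx₀, hx₀L, l1⟩
  obtain ⟨q₂, hq₂, hq₂j⟩ := hK2 y₁ hy₁K
  have hqq : q₁ = q₂ := hq₁l.unique hg hq₂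
  rw [← hqq] at hq₂j
  have hwx : ∀ {u v : X}, Lft g (stop τ s) u v → WS g.symm x u ∧ WS g.symm (τ s).val v := by
    intro u v h
    have h0 := h.ws0
    have h1 := h.ws1
    rw [stop_zero_apply] at h0
    rw [stop_one_apply] at h1
    exact ⟨h0, h1⟩
  have hw0 : ∀ {u v u' v' : X}, Lft g (stop τ s) u v → Lft g (stop τ s) u' v' →
      WS g.symm u u' := fun h h' => (hwx h).1.symm'.trans (hwx h').1
  have hw1 : ∀ {u v u' v' : X}, Lft g (stop τ s) u v → Lft g (stop τ s) u' v' →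
      WS g.symm v v' := fun h h' => (hwx h).2.symm'.trans (hwx h').2
  have lvl : ∀ {u v : X} {i : ℤ}, u ≠ v → WS g.symm u v → (Lz g ρ i u v ↔ lev g ρ u v ≤ i) :=
    fun h h' => lz_lev hg hρ0 hρ' h h'
  -- the images of all balls are in one ball
  have factC : ∀ t ∈ R, Lz g ρ L x t → ∀ p, Lz g ρ (-((b : ℤ) + 1)) t p → ∃ p',
      Lft g (stop τ s) p p' ∧ Lz g ρ ((J₁ + 2 * b + k.natAbs : ℕ) : ℤ) x₀' p' := by
    intro t ht htL p htp
    have hpK : p ∈ Tub g ρ R x L (-((b : ℤ) + 1)) := ⟨t, ht, htL, htp⟩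
    obtain ⟨p', hp', hpj⟩ := hK2 p hpK
    refine ⟨p', hp', ?_⟩
    by_cases hpx : x₀ = p
    · rw [← hpx] at hp'
      rw [hx₀'.unique hg hp']
      exact Lz.refl hρ0.le _ _
    have d1 : y₁ ≠ φ := fun e => hφK (e ▸ hy₁K)
    have d2 : x₀ ≠ y₁ := by
      intro e
      rw [← e] at l2
      exact l2 (Lz.refl hρ0.le _ _)
    have d3 : p ≠ φ := fun e => hφK (e ▸ hpK)
    have d4 : x₀ ≠ φ := fun e => hφK (e ▸ hx₀K)
    have m4 : ¬ Lz g ρ (-((b : ℤ) + 1)) p φ := by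
      intro hcon
      exact hfar t ht htL ((lz_tri hg hρ hb htp hcon).mono (by omega))
    rw [lvl d3 (hw0 hp' hφ')] at m4
    have m5 := (lvl d4 (hw0 hx₀' hφ')).1 hx₀φ
    have m1 := lev_tri hg hρ0 hρ hb d4 d3.symm hpx (hw0 hx₀' hφ') (hw0 hφ' hp')
    rw [lev_comm g ρ φ p] at m1
    have m2 := lev_tri hg hρ0 hρ hb d2.symm d4 d1 (hw0 hq₁l hx₀') (hw0 hx₀' hφ')
    rw [lev_comm g ρ y₁ x₀] at m2
    have m3 := (lvl d2 (hw0 hx₀' hq₁l)).1 l1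
    have m3' := l2
    rw [lvl d2 (hw0 hx₀' hq₁l)] at m3'
    have key := hk (stop τ s) x₀ p y₁ φ x₀' p' q₁ φ' hx₀ hx₀' hp' hq₁l hφ' hpx d1 d2 d3 (by omega)
    -- at time `s`
    have e1 : x₀' ≠ p' := fun e => hpx (hx₀'.inj hg (e ▸ hp'))
    have e2 : q₁ ≠ φ' := fun e => d1 (hq₁l.inj hg (e ▸ hφ'))
    have e3 : x₀' ≠ q₁ := fun e => d2 (hx₀'.inj hg (e ▸ hq₁l))
    have e4 : p' ≠ φ' := fun e => d3 (hp'.inj hg (e ▸ hφ'))
    have n3 := (lvl e3 (hw1 hx₀' hq₁l)).1 l3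
    have n2 : ¬ Lz g ρ j₀ q₁ φ' := by
      intro hcon
      refine hfφ ?_
      have := lz_tri hg hρ hb hq₂j hcon
      push_cast
      exact this
    rw [lvl e2 (hw1 hq₁l hφ')] at n2
    have n4 : lev g ρ p' φ' ≤ lev g ρ q₁ φ' + 2 * b := by
      by_cases hpq : p' = q₁
      · rw [hpq]
        omega
      · have h1 := lz_tri hg hρ hb hpj.symm hq₂j
        rw [lvl hpq (hw1 hp' hq₁l)] at h1
        have h2 := lev_tri hg hρ0 hρ hb hpq e2 e4 (hw1 hp' hq₁l) (hw1 hq₁l hφ')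
        omega
    rw [lvl e1 (hw1 hx₀' hp')]
    have hka : k ≤ |k| := le_abs_self k
    push_cast
    omega
  -- many points
  obtain ⟨F, F1, F2, F3⟩ := hj ((g ^ (-(L : ℤ))) x) ((mem_zp hR _ _).2 hτ)
  have hFL : ∀ y ∈ F, (g ^ (L : ℤ)) y ∈ R ∧ Lz g ρ L x ((g ^ (L : ℤ)) y) := by
    intro y hy
    refine ⟨(mem_zp hR _ _).2 (F1 y hy).1, ?_⟩
    have h1 := lz_zero.2 (F1 y hy).2
    have h2 : Lz g ρ L ((g ^ (L : ℤ)) ((g ^ (-(L : ℤ))) x)) ((g ^ (L : ℤ)) y) :=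
      Lz.shift.2 (h1.mono (by omega))
    rwa [zp_cancel] at h2
  have h4 := hN (zpath (b + 1) υ) (by
      rw [zpath_apply, u1, mem_zp hR]
      exact hx₀) (F.image (fun y => (g ^ ((b : ℤ) + 1)) ((g ^ (L : ℤ)) y))) (fun t ht => by
      obtain ⟨y, hy, rfl⟩ := Finset.mem_image.mp ht
      exact (mem_zp hR _ _).2 (hFL y hy).1) (fun t ht => by
      obtain ⟨y, hy, rfl⟩ := Finset.mem_image.mp ht
      rw [zpath_apply, u1]
      have h1 : Lz g ρ ((L : ℤ) + b) x₀ ((g ^ (L : ℤ)) y) :=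
        lz_tri hg hρ hb hx₀L.symm (hFL y hy).2
      exact (Lz.shift.2 (h1.mono (show (L : ℤ) + b ≤ (L + b + (b + 1)) - (b + 1) by omega))).ws hg
        hρ') (fun t ht t' ht' hne => by
      obtain ⟨y, hy, rfl⟩ := Finset.mem_image.mp ht
      obtain ⟨y', hy', rfl⟩ := Finset.mem_image.mp ht'
      intro hcon
      refine F2 y hy y' hy' (fun e => hne (by rw [e])) ?_
      have e1 : ∀ z : X, (g ^ ((b : ℤ) + 1)) ((g ^ (L : ℤ)) z) = g^[b + 1 + L] z := by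
        intro z
        rw [← zp_add, ← zp_nat]
        push_cast
        rfl
      rw [e1, e1] at hcon
      intro q
      have := hcon (q + (b + 1 + L - j))
      have e2 : ∀ z : X, g.symm^[q + (b + 1 + L - j)] (g^[b + 1 + L] z) =
          g.symm^[q] (g^[j] z) := by
        intro z
        rw [Function.iterate_add_apply g.symm q, bk g (show b + 1 + L - j ≤ b + 1 + L by omega),
          show b + 1 + L - (b + 1 + L - j) = j by omega]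
      rw [e2, e2] at this
      exact this) (fun t ht p hp => by
      obtain ⟨y, hy, rfl⟩ := Finset.mem_image.mp ht
      have hp' := lz_shift_iff.1 (lz_zero.2 hp)
      obtain ⟨p', g1, g2⟩ := factC _ (hFL y hy).1 (hFL y hy).2 _ (hp'.mono (by omega))
      have g3 := ((u3 _ _).1 g1).shift ((b : ℤ) + 1)
      rw [zp_cancel] at g3
      refine ⟨_, g3, ?_⟩
      rw [zpath_apply, u2]
      refine Lz.shift.2 (g2.mono ?_)
      push_cast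
      omega)
  rw [Finset.card_image_of_injective, F3] at h4
  · omega
  · exact (g ^ ((b : ℤ) + 1)).injective.comp (g ^ (L : ℤ)).injective

end Pool.Agent.Y330.N
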