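import Pool.Agent.Y330.N.A8

set_option autoImplicit false
set_option linter.unusedSectionVars false

open Filter Topology Set Metric unitInterval

namespace Pool.Agent.Y330.N

open Pool.Agent.H789R2.AN Pool.Agent.H789R2.GP Pool.Agent.TH304.K289 Pool.Agent.TH289.L
open Pool.Agent.Y330.G Pool.Agent.Y330.H

variable {X : Type*} [MetricSpace X] [CompactSpace X] {g : X ≃ₜ X} {c : ℝ}

theorem zpath_stop (m : ℤ) (τ : C(I, SM g)) (s : I) : zpath m (stop τ s) = stop (zpath m τ) s := rfl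

theorem lft_shift_iff (m : ℤ) {τ : C(I, SM g)} {y : X} :
    (∃ p, Lft g (zpath m τ) ((g ^ m) y) p) ↔ ∃ p, Lft g τ y p :=
  ⟨fun ⟨_, h⟩ => ⟨_, h.unshift m⟩, fun ⟨_, h⟩ => ⟨_, h.shift m⟩⟩

theorem Blk.shift (m : ℤ) {τ : C(I, SM g)} {s₁ : I} {y : X} (h : Blk g τ s₁ y) :
    Blk g (zpath m τ) s₁ ((g ^ m) y) := by
  refine ⟨fun s hs => ?_, fun hcon => h.2 ?_⟩
  · rw [← zpath_stop, lft_shift_iff]
    exact h.1 s hs
  · rw [← zpath_stop, lft_shift_iff] at hcon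
    exact hcon

/-- nothing is blocked -/
theorem no_block [ConnectedSpace X] [Nontrivial X] (hg : LP g c) (hX : ULC X) {c₁ : ℝ}
    (hc₁ : 0 < c₁) (hs : Sl g c c₁) (hs' : Sl g.symm c c₁) {ρ : ℝ} (hρ0 : 0 < ρ)
    (hρc : ρ ≤ c / 4) {R : Set X} (hQ : QM g ρ R) (hR : MinAtt g.symm R) (τ : C(I, SM g))
    (hτ : (τ 0).val ∈ R) (y₀ : X) (hy₀ : WS g.symm (τ 0).val y₀) : ∃ p, Lft g τ y₀ p := by
  classical
  by_contra hcon
  have hc := hg.c_pos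
  have hρ : 2 * ρ ≤ c := by linarith
  have hρ' : ρ ≤ c := by linarith
  obtain ⟨b, hb⟩ := pw (c := c) hρ0
  obtain ⟨J, hJ⟩ := case_three hg hX hc₁ hs hs' hρ0 hρc hQ hR
  obtain ⟨i₀, hi₀⟩ := exists_lz hρ0 hy₀
  set τ₁ : C(I, SM g) := zpath (-(i₀ : ℤ)) τ with hτ₁
  set y₁ := (g ^ (-(i₀ : ℤ))) y₀ with hy₁
  have h1 : Lz g ρ 0 (τ₁ 0).val y₁ := Lz.shift.2 (hi₀.mono (by omega))
  have h2 : ¬ ∃ p, Lft g τ₁ y₁ p := by
    rw [hτ₁, hy₁, lft_shift_iff]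
    exact hcon
  have h3 : (τ₁ 0).val ∈ R := by
    rw [hτ₁, zpath_apply, mem_zp hR]
    exact hτ
  set x := (τ₁ 0).val with hx
  have hJ0 : (0 : ℤ) ≤ J := by omega
  have hUb : ∃ y ∈ Tub g ρ R x J 0, ¬ ∃ p, Lft g τ₁ y p :=
    ⟨y₁, ⟨x, h3, Lz.refl hρ0.le _ _, h1⟩, h2⟩
  obtain ⟨s₁, ⟨φ, hφU, hφ1⟩, hφ2⟩ := first_block hg hX hc₁ hs hs' hρ0 hρ τ₁
    (closed_tub hR.1.closed x J 0) (i := (J : ℤ) + b + b)
    (fun y hy y' hy' => tub_level2 hg hρ hb hJ0 hy hy') hUb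
  have hw : ∀ y ∈ Tub g ρ R x J 0, WS g.symm x y := fun y hy =>
    (tub_level hg hρ hb hJ0 hy).ws hg hρ'
  have hφB : Blk g τ₁ s₁ φ := ⟨fun s hs => hφ2 s hs φ hφU, hφ1⟩
  have hU1 : ∀ y ∈ Tub g ρ R x J 0, y ≠ φ → ∃ p, Lft g (stop τ₁ s₁) y p := by
    intro y hy hne
    by_contra hcon
    exact hne (blk_unique hg hX hc₁ hs hs' hρ0 hρ hQ h3 (y := y) (z := φ)
      ⟨fun s hs => hφ2 s hs y hy, hcon⟩ hφB (hw y hy) (hw φ hφU))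
  by_cases hφT : φ ∈ R ∧ Lz g ρ J x φ
  · exact case_two hg hX hc₁ hs hs' hρ0 hρc hR hφT.1 hφB (hw φ hφU)
      (fun y hy hne => hU1 y ⟨φ, hφT.1, hφT.2, lz_zero.2 hy⟩ hne)
      (fun s hs y hy => hφ2 s hs y ⟨φ, hφT.1, hφT.2, lz_zero.2 hy⟩)
  · have hTc : IsClosed (R ∩ {t | Lz g ρ J x t}) :=
      hR.1.closed.inter ((closed_lz g ρ J).preimage (continuous_const.prodMk continuous_id))
    obtain ⟨δ, hδ, hball⟩ := Metric.isOpen_iff.mp hTc.isOpen_compl φ hφT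
    obtain ⟨N, hN⟩ := pw (c := c) (half_pos hδ)
    have hlow : ∀ e : ℤ, (∃ t ∈ R, Lz g ρ J x t ∧ Lz g ρ e t φ) → -(N : ℤ) ≤ e := by
      rintro e ⟨t, a1, a2, a3⟩
      by_contra hlt
      push Not at hlt
      refine not_lz_far hg hρ' hδ hN (x := t) (y := φ) ?_ (a3.mono hlt.le)
      by_contra hd
      push Not at hd
      exact hball (by rwa [mem_ball]) ⟨a1, a2⟩
    obtain ⟨e₀, ⟨x₀, b1, b2, b3⟩, hmin⟩ := Int.exists_least_of_bdd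
      (P := fun e : ℤ => ∃ t ∈ R, Lz g ρ J x t ∧ Lz g ρ e t φ) ⟨-(N : ℤ), hlow⟩ ⟨0, hφU⟩
    have he0 : e₀ ≤ 0 := hmin 0 hφU
    obtain ⟨n₀, hn₀⟩ : ∃ n₀ : ℕ, (n₀ : ℤ) = -e₀ := ⟨(-e₀).toNat, Int.toNat_of_nonneg (by omega)⟩
    refine hJ (zpath n₀ τ₁) s₁ ((g ^ (n₀ : ℤ)) φ) ((g ^ (n₀ : ℤ)) x₀) (J + n₀) (by omega) ?_ ?_ ?_ ?_
      ?_ ?_ (hφB.shift n₀)
    · rw [zpath_apply, mem_zp hR]
      exact h3
    · rw [mem_zp hR]
      exact b1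
    · rw [zpath_apply, Lz.shift]
      exact b2.mono (by push_cast; omega)
    · rw [Lz.shift]
      exact b3.mono (by omega)
    · intro t ht htl hcon
      rw [zpath_apply, lz_shift_iff] at htl
      have h5 := lz_shift_iff.1 hcon.symm
      have := hmin (-1 - n₀) ⟨(g ^ (-(n₀ : ℤ))) t, (mem_zp hR _ _).2 ht,
        htl.mono (by push_cast; omega), h5.symm⟩
      omega
    · rintro y ⟨t, ht, htl, hty⟩ hne
      rw [zpath_apply, lz_shift_iff] at htl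
      have h5 : Lz g ρ 0 ((g ^ (-(n₀ : ℤ))) t) ((g ^ (-(n₀ : ℤ))) y) :=
        Lz.shift.2 (hty.mono (by omega))
      have h6 := hU1 ((g ^ (-(n₀ : ℤ))) y) ⟨(g ^ (-(n₀ : ℤ))) t, (mem_zp hR _ _).2 ht,
        htl.mono (by push_cast; omega), h5⟩ (by
          intro e
          apply hne
          rw [← e, zp_cancel])
      rw [← lft_shift_iff (n₀ : ℤ), zp_cancel, zpath_stop] at h6
      exact h6

/-- the strips starting at a point of a minimal repeller are uniformly bounded -/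
theorem bounded_strip [ConnectedSpace X] [Nontrivial X] (hg : LP g c) (hX : ULC X) {c₁ : ℝ}
    (hc₁ : 0 < c₁) (hs : Sl g c c₁) (hs' : Sl g.symm c c₁) {ρ : ℝ} (hρ0 : 0 < ρ)
    (hρc : ρ ≤ c / 4) {R : Set X} (hQ : QM g ρ R) (hR : MinAtt g.symm R) : ∃ K : ℕ,
      ∀ τ : C(I, SM g), (τ 0).val ∈ R → ∀ y p, SR g.symm ρ (τ 0).val y → Lft g τ y p →
      Lz g ρ K (τ 1).val p := by
  have hc := hg.c_pos
  have hρ : 2 * ρ ≤ c := by linarith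
  have hρ' : ρ ≤ c := by linarith
  obtain ⟨b, hb⟩ := pw (c := c) hρ0
  obtain ⟨ε₁, hε₁, J₁, -, hJ₁⟩ := onto_count hg hX hc₁ hs hs' hρ0 hρc hR
  obtain ⟨N₁, hN₁⟩ := pw (c := c) (half_pos hε₁)
  obtain ⟨k, hk⟩ := hQ (N₁ + 2 * b)
  obtain ⟨jₛ, hjₛ⟩ := sphere_pt hg hX hR hρ0 hρ
  refine ⟨J₁ + 2 * b + k.natAbs, fun τ hτ y y' hy hyl => ?_⟩
  have hall := fun (τ : C(I, SM g)) (hτ : (τ 0).val ∈ R) =>
    no_block hg hX hc₁ hs hs' hρ0 hρc hQ hR τ hτ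
  have hx' := Lft.base τ
  set x := (τ 0).val with hx
  set x' := (τ 1).val with hx'd
  by_cases hxy : x = y
  · rw [← hxy] at hyl
    rw [hyl.unique hg hx']
    exact Lz.refl hρ0.le _ _
  obtain ⟨z, z', z1, z2, z3, z4⟩ := hJ₁ τ hτ (fun y hy =>
    hall τ hτ y ((lz_zero.2 hy).ws hg hρ'))
  have hx'R : x' ∈ R := hR.1.sat _ hτ _ (path_ws hg τ 0 1)
  obtain ⟨j₁, hj₁⟩ := exists_lz hρ0 hyl.ws1
  set A : ℕ := max j₁ J₁ + b with hA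
  have hcl : IsClosed {q | Lz g ρ A x' q} :=
    (closed_lz g ρ A).preimage (continuous_const.prodMk continuous_id)
  have hr0 : (rev τ 0).val = x' := by rw [rev_apply, unitInterval.symm_zero]
  have hr1 : (rev τ 1).val = x := by rw [rev_apply, unitInterval.symm_one]
  obtain ⟨j₂, m, hjm⟩ := compact_lift hg hc₁ hs' hρ0 hρ (rev τ) hcl (i := (A : ℤ) + b)
    (fun q hq q' hq' => lz_tri hg hρ hb (Lz.symm hq) hq')
    (fun q hq => hall (rev τ) (by rw [hr0]; exact hx'R) q (by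
      rw [hr0]
      exact Lz.ws hg hρ' hq)) hc₁
  -- the point far away
  obtain ⟨w, hw1, hw2⟩ : ∃ w, WS g.symm x w ∧ ¬ Lz g ρ ((j₂ : ℤ) + b) x w := by
    obtain ⟨y, a1, a2⟩ := hjₛ ((g ^ (-((j₂ + b + jₛ : ℕ) : ℤ))) x) ((mem_zp hR _ _).2 hτ)
    have h1 : Lz g ρ ((j₂ + b + jₛ : ℕ) : ℤ) ((g ^ ((j₂ + b + jₛ : ℕ) : ℤ))
        ((g ^ (-((j₂ + b + jₛ : ℕ) : ℤ))) x)) ((g ^ ((j₂ + b + jₛ : ℕ) : ℤ)) y) :=
      Lz.shift.2 (a1.mono (by omega))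
    have h2 : ¬ Lz g ρ ((j₂ : ℤ) + b) ((g ^ ((j₂ + b + jₛ : ℕ) : ℤ))
        ((g ^ (-((j₂ + b + jₛ : ℕ) : ℤ))) x)) ((g ^ ((j₂ + b + jₛ : ℕ) : ℤ)) y) := by
      rw [Lz.shift]
      intro hcon
      exact a2 (hcon.mono (by push_cast; omega))
    rw [zp_cancel] at h1 h2
    exact ⟨_, h1.ws hg hρ', h2⟩
  obtain ⟨w', hw'⟩ := hall τ hτ w hw1
  have hw3 : ¬ Lz g ρ A x' w' := by
    intro hcon
    apply hw2
    obtain ⟨Δ, a1, a2, a3⟩ := hw'.rev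
    have := (hjm w' hcon Δ a1 a2).1 1
    rw [a3, hr1] at this
    exact this.mono (by omega)
  have lvl : ∀ {u v : X} {i : ℤ}, u ≠ v → WS g.symm u v → (Lz g ρ i u v ↔ lev g ρ u v ≤ i) :=
    fun h h' => lz_lev hg hρ0 hρ' h h'
  have hxz : x ≠ z := by
    intro e
    rw [← e, dist_self] at z2
    linarith
  have hxw : x ≠ w := by
    intro e
    rw [← e] at hw2
    exact hw2 (Lz.refl hρ0.le _ _)
  have hyw : y ≠ w := by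
    intro e
    rw [← e] at hw2
    exact hw2 ((lz_zero.2 hy).mono (by omega))
  have hzw : z ≠ w := by
    intro e
    rw [← e] at hw2
    exact hw2 ((lz_zero.2 z1).mono (by omega))
  have m1 := (lvl hxy hyl.ws0).1 (lz_zero.2 hy)
  have m2 := (lvl hxz z3.ws0).1 (lz_zero.2 z1)
  have m3 := not_lz_far hg hρ' hε₁ hN₁ z2
  rw [lvl hxz z3.ws0] at m3
  rw [lvl hxw hw1] at hw2
  have t1 := lev_tri hg hρ0 hρ hb hxz.symm hxw hzw z3.ws0.symm' hw1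
  rw [lev_comm g ρ z x] at t1
  have t2 := lev_tri hg hρ0 hρ hb hxy hyw hxw hyl.ws0 (hyl.ws0.symm'.trans hw1)
  have key := hk τ x y z w x' y' z' w' hτ hx' hyl z3 hw' hxy hzw hxz hyw (by omega)
  have e1 : x' ≠ y' := fun e => hxy (hx'.inj hg (e ▸ hyl))
  have e2 : x' ≠ z' := fun e => hxz (hx'.inj hg (e ▸ z3))
  have e3 : x' ≠ w' := fun e => hxw (hx'.inj hg (e ▸ hw'))
  have e4 : y' ≠ w' := fun e => hyw (hyl.inj hg (e ▸ hw'))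
  have e5 : z' ≠ w' := fun e => hzw (z3.inj hg (e ▸ hw'))
  rw [lvl e3 hw'.ws1] at hw3
  have n1 := (lvl e1 hyl.ws1).1 hj₁
  have n2 := (lvl e2 z3.ws1).1 z4
  have t3 := lev_tri hg hρ0 hρ hb e1.symm e3 e4 hyl.ws1.symm' hw'.ws1
  rw [lev_comm g ρ y' x'] at t3
  have t4 := lev_tri hg hρ0 hρ hb e2 e5 e3 z3.ws1 (z3.ws1.symm'.trans hw'.ws1)
  rw [lvl e1 hyl.ws1]
  have hka : k ≤ |k| := le_abs_self k
  rw [hA] at hw3
  push_cast at hw3 ⊢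
  omega

/-- the form for rectangles -/
theorem bounded_rc [ConnectedSpace X] [Nontrivial X] (hg : LP g c) (hX : ULC X) {c₁ : ℝ}
    (hc₁ : 0 < c₁) (hs : Sl g c c₁) (hs' : Sl g.symm c c₁) {ρ : ℝ} (hρ0 : 0 < ρ)
    (hρc : ρ ≤ c / 4) {R : Set X} (hQ : QM g ρ R) (hR : MinAtt g.symm R) : ∃ K : ℕ,
      ∀ R₀ : I → I → X, Rc g R₀ → R₀ 0 0 ∈ R → Lv g ρ 0 (R₀ 0 0) (R₀ 0 1) →
      Lv g ρ K (R₀ 1 0) (R₀ 1 1) := by
  obtain ⟨K, hK⟩ := bounded_strip hg hX hc₁ hs hs' hρ0 hρc hQ hR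
  refine ⟨K, fun R₀ hR₀ h0 h1 => ?_⟩
  obtain ⟨τ, hτ⟩ := hR₀.pathS 0
  obtain ⟨Δ, d1, d2⟩ := hR₀.tr.strip 0 1
  have := hK τ (by rw [hτ]; exact h0) (R₀ 0 1) (R₀ 1 1) (by rw [hτ]; exact h1)
    ⟨Δ, fun r => by rw [d1, hτ], d2 0, d2 1⟩
  rw [hτ] at this
  exact lz_nat.1 this

end Pool.Agent.Y330.N
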