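import Pool.Agent.Y330.N.A9
import Pool.Agent.Y330.J.A7

set_option autoImplicit false
set_option linter.unusedSectionVars false

open Filter Topology Set Metric unitInterval

namespace Pool.Agent.Y330.N

open Pool.Agent.H789R2.AN Pool.Agent.H789R2.GP Pool.Agent.TH304.K289 Pool.Agent.TH289.L
open Pool.Agent.Y330.G Pool.Agent.Y330.H

variable {X : Type*} [MetricSpace X] [CompactSpace X] {g : X ≃ₜ X} {c : ℝ}

/-- no proper repeller -/
theorem no_repeller' [ConnectedSpace X] [Nontrivial X] (hg : LP g c) (hX : ULC X) {c₁ : ℝ}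
    (hc₁ : 0 < c₁) (hs : Sl g c c₁) {ρ : ℝ} (hρ0 : 0 < ρ)
    (hρ : 2 * ρ ≤ c₁) {R : Set X}
    (hR : MinAtt g.symm R) (hB : ∃ K : ℕ, ∀ R₀ : I → I → X, Rc g R₀ → R₀ 0 0 ∈ R →
      Lv g ρ 0 (R₀ 0 0) (R₀ 0 1) → Lv g ρ K (R₀ 1 0) (R₀ 1 1)) : R = univ := by
  by_contra hne
  obtain ⟨K, hK⟩ := hB
  obtain ⟨η₁, hη₁, hpath⟩ := leaf_path hg.symm hX ρ hρ0
  obtain ⟨x, hx⟩ := hR.1.nonempty
  obtain ⟨w, hw1, hw2⟩ := exit hg hR hne hη₁ hx
  obtain ⟨w', hw', hww⟩ := exists_repeller hg.symm hR.1 hw2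
  have hww' : WS g w w' := hww
  obtain ⟨v, hv0, hv1, hv⟩ := hpath ⟨x⟩ ⟨w⟩ ((SM.dist_le _ _ hη₁.le).2 hw1)
  have hvl : ∀ t, Lv g ρ 0 x (v t).val := fun t => (SM.dist_le _ _ hρ0.le).1 (hv t)
  let v' : C(I, SM g.symm) := ⟨fun t => v (σ t), by fun_prop⟩
  obtain ⟨τ, hτ0, hτ1⟩ := leaf_conn hg hX w w' hww'
  obtain ⟨T, h1, h2, h3⟩ := extend hg hc₁ hs (K := K) v' (fun T hT h0 t => by
    have key : ∀ t, Lv g ρ K (T 1 1) (T 1 t) := by
      intro t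
      have hT' : Rc g (fun s' t' => T s' (σ (σ t * t'))) :=
        hT.reparam (a := fun s => s) (b := fun t' => σ (σ t * t')) continuous_id (by fun_prop)
      have e0 : T 0 (σ (σ t * 0)) = x := by
        rw [h0, mul_zero, unitInterval.symm_zero]
        show (v (σ 1)).val = x
        rw [unitInterval.symm_one, hv0]
      have := hK _ hT' (by
          show T 0 (σ (σ t * 0)) ∈ R
          rw [e0]
          exact hx)
        (by
          show Lv g ρ 0 (T 0 (σ (σ t * 0))) (T 0 (σ (σ t * 1)))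
          rw [e0, h0]
          exact hvl _)
      have e : Lv g ρ K (T 1 (σ (σ t * 0))) (T 1 (σ (σ t * 1))) := this
      rwa [mul_zero, mul_one, unitInterval.symm_zero, unitInterval.symm_symm] at e
    have k1 := key 0
    have k2 := key t
    exact (sr_tr k1.symm' k2).mono (by linarith)) τ
    (by
      rw [hτ0]
      show w = (v (σ 0)).val
      rw [unitInterval.symm_zero, hv1])
  -- the corner
  have hb : T 1 1 ∈ R := by
    have e : WS g (T 0 1) (T 1 1) := h1.cs.toWS (1, 1)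
    have e2 : T 0 1 = x := by
      rw [h3]
      show (v (σ 1)).val = x
      rw [unitInterval.symm_one, hv0]
    rw [e2] at e
    exact hR.1.sat x hx _ e
  have hc : WS g.symm (T 1 0) (T 1 1) := h1.cu.toWS (1, 1)
  rw [h2, hτ1] at hc
  exact hw' ⟨T 1 1, hb, hc⟩

/-- all unstable paths lift along all stable displacements -/
theorem lf_all' [ConnectedSpace X] [Nontrivial X] (hg : LP g c) (hX : ULC X) {c₁ : ℝ}
    (hc₁ : 0 < c₁) (hs : Sl g c c₁) {ρ : ℝ} (hρ0 : 0 < ρ)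
    (hρ : 2 * ρ ≤ c₁) (hB : ∃ K : ℕ, ∀ R₀ : I → I → X, Rc g R₀ →
      Lv g ρ 0 (R₀ 0 0) (R₀ 0 1) → Lv g ρ K (R₀ 1 0) (R₀ 1 1)) :
    ∀ a s, WS g a s → Lf g a s := by
  obtain ⟨K, hK⟩ := hB
  intro a s has υ hυ
  obtain ⟨j, hj⟩ := path_level hg.symm υ hρ0
  obtain ⟨v, hv⟩ := path_iter j υ
  have hws : WS g (g.symm^[j] a) (g.symm^[j] s) := by
    rw [← WS.iter j, iterR, iterR]
    exact has
  obtain ⟨τ, hτ0, hτ1⟩ := leaf_conn hg hX _ _ hws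
  obtain ⟨T, h1, h2, h3⟩ := extend hg hc₁ hs (K := K) v (fun T hT h0 t => by
    have hT' : Rc g (fun s' t' => T s' (t * t')) :=
      hT.reparam (a := fun s => s) (b := fun t' => t * t') continuous_id (by fun_prop)
    have := hK _ hT'
      (by
        show Lv g ρ 0 (T 0 (t * 0)) (T 0 (t * 1))
        rw [mul_zero, mul_one, h0, h0, hv, hv]
        exact hj t)
    have e : Lv g ρ K (T 1 (t * 0)) (T 1 (t * 1)) := this
    rw [mul_zero, mul_one] at e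
    exact SR.mono e (by linarith)) τ
    (by rw [hτ0, hv, hυ])
  obtain ⟨Γ, c1, c2⟩ := h1.strip 0 1
  obtain ⟨Γ', d1, d2⟩ := strip_iter j Γ
  refine ⟨(Γ' 1).y, Γ', ?_, rfl, fun t => ?_⟩
  · rw [d2, c2, h2, hτ1, iterR]
  · rw [d1, c1, h3, hv, iterR]



theorem QM.mono {ρ : ℝ} {S S' : Set X} (h : QM g ρ S) (hS : S' ⊆ S) : QM g ρ S' := by
  intro i
  obtain ⟨k, hk⟩ := h i
  exact ⟨k, fun τ x y z w x' y' z' w' hx => hk τ x y z w x' y' z' w' (hS hx)⟩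

/-- the condition passes to the closure -/
theorem QM.closure (hg : LP g c) {c₁ : ℝ} (hc₁ : 0 < c₁) (hs' : Sl g.symm c c₁) {ρ : ℝ}
    (hρ0 : 0 < ρ) (hρ : 2 * ρ ≤ c) {S : Set X} (hS : ∀ x ∈ S, ∀ y, WS g x y → y ∈ S)
    (h : QM g ρ S) : QM g ρ (closure S) := by
  have hρ' : ρ ≤ c := by linarith
  have hcm : ∀ x, g (g.symm x) = g.symm (g x) := fun x => by
    rw [g.symm_apply_apply, g.apply_symm_apply]
  obtain ⟨b, hb⟩ := pw (c := c) hρ0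
  intro i
  obtain ⟨k, hk⟩ := h (i + 2 * b)
  refine ⟨k + 2 * b, fun τ x y z w x' y' z' w' hx L1 L2 L3 L4 hxy hzw hxz hyw hlev => ?_⟩
  by_cases hxS : x ∈ S
  · have := hk τ x y z w x' y' z' w' hxS L1 L2 L3 L4 hxy hzw hxz hyw (by omega)
    omega
  have lvl : ∀ {u v : X} {i : ℤ}, u ≠ v → WS g.symm u v → (Lz g ρ i u v ↔ lev g ρ u v ≤ i) :=
    fun h h' => lz_lev hg hρ0 hρ' h h'
  have W : ∀ {u v : X}, WS g.symm (τ 0).val u → WS g.symm (τ 0).val v →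
      WS g.symm u v := fun h h' => h.symm'.trans h'
  have W' : ∀ {u v : X}, WS g.symm (τ 1).val u → WS g.symm (τ 1).val v →
      WS g.symm u v := fun h h' => h.symm'.trans h'
  set A : ℕ := (lev g ρ x y).natAbs + (lev g ρ x z).natAbs + (lev g ρ x' y').natAbs +
    (lev g ρ x' z').natAbs + b + 1 with hA
  obtain ⟨e, he, hmap⟩ := uc_map_iter (g := g.symm) (φ := g) hcm A ρ hρ0
  obtain ⟨Δ, a1, a2, a3⟩ := L1
  have L1 : Lft g τ x x' := ⟨Δ, a1, a2, a3⟩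
  obtain ⟨j, η, hη, ho⟩ := open_lift hg hc₁ hs' a1 he
  obtain ⟨δ, hδ, hlp⟩ := hg.lp (min η c) (lt_min hη hg.c_pos)
  obtain ⟨q, hq, hqx⟩ := Metric.mem_closure_iff.1 hx δ hδ
  obtain ⟨v, hv1, hv2⟩ := hlp q x (by rwa [dist_comm])
  have hvS : v ∈ S := hS q hq v (WS.of_SR (hg.cS _ _ (hv1.mono (min_le_right _ _))))
  obtain ⟨Δ', d1, d2, d3, -⟩ := ho v (by rw [a2]; exact hv2.mono (min_le_left _ _))
  set v' := (Δ' 1).y with hv'
  have L5 : Lft g τ v v' := ⟨Δ', d1, d2, rfl⟩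
  have r0 : Lz g ρ (-(A : ℤ)) x v := by
    have := hmap _ _ (d3 0)
    rw [a2, d2] at this
    rw [lz_iff, neg_neg, zp_nat, zp_nat]
    exact this
  have r1 : Lz g ρ (-(A : ℤ)) x' v' := by
    have := hmap _ _ (d3 1)
    rw [a3] at this
    rw [lz_iff, neg_neg, zp_nat, zp_nat]
    exact this
  have hxv : x ≠ v := fun e => hxS (e ▸ hvS)
  have hxv' : x' ≠ v' := fun e => hxv (L1.inj hg (e ▸ L5))
  rw [lvl hxv (W L1.ws0 L5.ws0)] at r0
  rw [lvl hxv' (W' L1.ws1 L5.ws1)] at r1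
  have hvy : v ≠ y := by
    rintro rfl
    omega
  have hvz : v ≠ z := by
    rintro rfl
    omega
  have hxy' : x' ≠ y' := fun e => hxy (L1.inj hg (e ▸ L2))
  have hxz' : x' ≠ z' := fun e => hxz (L1.inj hg (e ▸ L3))
  have hvy' : v' ≠ y' := fun e => hvy (L5.inj hg (e ▸ L2))
  have hvz' : v' ≠ z' := fun e => hvz (L5.inj hg (e ▸ L3))
  have t1 := lev_tri hg hρ0 hρ hb hxv.symm hxy hvy (W L5.ws0 L1.ws0) (W L1.ws0 L2.ws0)
  have t2 := lev_tri hg hρ0 hρ hb hxv hvz hxz (W L1.ws0 L5.ws0) (W L5.ws0 L3.ws0)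
  rw [lev_comm g ρ v x] at t1
  have t3 := lev_tri hg hρ0 hρ hb hxv' hvy' hxy' (W' L1.ws1 L5.ws1) (W' L5.ws1 L2.ws1)
  have t4 := lev_tri hg hρ0 hρ hb hxv'.symm hxz' hvz' (W' L5.ws1 L1.ws1) (W' L1.ws1 L3.ws1)
  rw [lev_comm g ρ v' x'] at t4
  have key := hk τ v y z w v' y' z' w' hvS L5 L2 L3 L4 hvy hzw hvz hyw (by omega)
  omega

/-- the uniform bound for all rectangles -/
theorem bd_qm [ConnectedSpace X] [Nontrivial X] (hg : LP g c) (hX : ULC X) {c₁ : ℝ}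
    (hc₁ : 0 < c₁) (hs : Sl g c c₁) (hs' : Sl g.symm c c₁) {ρ : ℝ} (hρ0 : 0 < ρ)
    (hρ : 2 * ρ ≤ c₁) (hρc : ρ ≤ c / 4) {S : Set X} (hS0 : S.Nonempty)
    (hSi : ∀ x, g x ∈ S ↔ x ∈ S) (hS : ∀ x ∈ S, ∀ y, WS g x y → y ∈ S)
    (hQ : QM g ρ S) : ∃ K : ℕ, ∀ R₀ : I → I → X, Rc g R₀ →
      Lv g ρ 0 (R₀ 0 0) (R₀ 0 1) → Lv g ρ K (R₀ 1 0) (R₀ 1 1) := by
  have hc := hg.c_pos
  have hatt : IsAtt g.symm (_root_.closure S) := by
    refine ⟨isClosed_closure, hS0.closure, ?_, closure_sat hg.symm hS⟩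
    intro x
    have e2 := g.symm.preimage_closure S
    have e3 : g.symm ⁻¹' S = S := by
      ext z
      exact inv_symm hSi z
    rw [e3] at e2
    exact Set.ext_iff.1 e2 x
  obtain ⟨R, hRS, hR⟩ := exists_minAtt hatt
  have hQ' : QM g ρ R := (hQ.closure hg hc₁ hs' hρ0 (by linarith) hS).mono hRS
  have hRu : R = univ := no_repeller' hg hX hc₁ hs hρ0 hρ hR
    (bounded_rc hg hX hc₁ hs hs' hρ0 hρc hQ' hR)
  rw [hRu] at hR hQ'
  obtain ⟨K, hK⟩ := bounded_rc hg hX hc₁ hs hs' hρ0 hρc hQ' hR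
  exact ⟨K, fun R hR h0 => hK R hR (mem_univ _) h0⟩

end Pool.Agent.Y330.N
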