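import Pool.Agent.TH289.K.Def

set_option autoImplicit false

open Filter Topology Set unitInterval

namespace Pool.Agent.Y330.N

open Pool.Agent.TH289.K

/-- The points `x s` and `y s` lie in the same unstable leaf of `f`, uniformly in `s`: for every
neighbourhood `𝒰` of the diagonal the points `f⁻ⁿ (x s)` and `f⁻ⁿ (y s)` are `𝒰`-close for all
large `n`, uniformly in `s`. -/
def UnstablyRelated {M : Type*} [TopologicalSpace M] (f : M ≃ₜ M) (x y : C(I, M)) : Prop :=
  ∀ 𝒰 ∈ 𝓝ˢ (diagonal M), ∀ᶠ n in atTop, ∀ s, (f.symm^[n] (x s), f.symm^[n] (y s)) ∈ 𝒰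

/-- The points `x`, `y` have unstable level at most `i`, at the scale `𝒰`: the points `f⁻ⁿ x` and
`f⁻ⁿ y` are `𝒰`-close for all integers `n ≥ i`.  (The level is a dynamical version of the logarithm
of the distance of `x` and `y` in their unstable leaf.) -/
def ZLevel {M : Type*} [TopologicalSpace M] (f : M ≃ₜ M) (𝒰 : Set (M × M)) (i : ℤ) (x y : M) :
    Prop :=
  ∀ n : ℤ, i ≤ n → ((f ^ (-n)) x, (f ^ (-n)) y) ∈ 𝒰

/-- The cross ratio `|x y| |z w| / (|x z| |y w|)` of four points of an unstable leaf is at most `i`,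
in the logarithmic scale: `level (x, y) + level (z, w) ≤ level (x, z) + level (y, w) + i` (up to a
shift of `i`), where `x ≠ z` and `y ≠ w`. -/
def CrossRatioLE {M : Type*} [TopologicalSpace M] (f : M ≃ₜ M) (𝒰 : Set (M × M)) (i : ℤ)
    (x y z w : M) : Prop :=
  ∃ a b c d : ℤ, ZLevel f 𝒰 a x y ∧ ZLevel f 𝒰 b z w ∧ ¬ ZLevel f 𝒰 c x z ∧ ¬ ZLevel f 𝒰 d y w ∧
    a + b ≤ c + d + i

/-- The points `p` and `x` lie in the same stable leaf of `f`: for every neighbourhood `𝒰` of the
diagonal the points `fⁿ p` and `fⁿ x` are `𝒰`-close for all large `n`. -/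
def SameStableLeaf {M : Type*} [TopologicalSpace M] (f : M ≃ₜ M) (p x : M) : Prop :=
  ∀ 𝒰 ∈ 𝓝ˢ (diagonal M), ∀ᶠ n in atTop, (f^[n] p, f^[n] x) ∈ 𝒰

/-- The holonomies along the stable leaf of the point `p` are uniformly (weakly) quasi-Möbius: for
every `i` there is `k` such that, if `x` is a path in the stable leaf of `p`, of whatever length, if
the stable holonomy along `x` takes the points `x 0`, `y 0`, `z 0`, `w 0` of an unstable leaf to
`x 1`, `y 1`, `z 1`, `w 1` (that is, `y`, `z`, `w` are stable paths and `y s`, `z s`, `w s` lie in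
the unstable leaf of `x s`), and if the cross ratio of the first four points is at most `i`, then the
cross ratio of the last four points is at most `k`. -/
def QuasiMoebiusAlong {M : Type*} [TopologicalSpace M] (f : M ≃ₜ M) (𝒰 : Set (M × M)) (p : M) :
    Prop :=
  ∀ i : ℤ, ∃ k : ℤ, ∀ x y z w : C(I, M), SameStableLeaf f p (x 0) → StablePath f x →
    StablePath f y → StablePath f z → StablePath f w → UnstablyRelated f x y →
    UnstablyRelated f x z → UnstablyRelated f x w →
    CrossRatioLE f 𝒰 i (x 0) (y 0) (z 0) (w 0) → CrossRatioLE f 𝒰 k (x 1) (y 1) (z 1) (w 1)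

/-- The stable holonomies of `f` are uniformly bounded (in the logarithmic scale of the levels):
there is `k` such that, if `x` and `y` are stable paths of whatever length and `x s`, `y s` lie in
the same unstable leaf, then the level of `x 1`, `y 1` exceeds the level of `x 0`, `y 0` by at most
`k`. -/
def BoundedHolonomy {M : Type*} [TopologicalSpace M] (f : M ≃ₜ M) (𝒰 : Set (M × M)) : Prop :=
  ∃ k : ℤ, ∀ x y : C(I, M), StablePath f x → StablePath f y → UnstablyRelated f x y →
    ∀ i : ℤ, ZLevel f 𝒰 i (x 0) (y 0) → ZLevel f 𝒰 (i + k) (x 1) (y 1)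

end Pool.Agent.Y330.N
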