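import Pool.Agent.Y330.N.B1
import Pool.Agent.Y330.N.Def

set_option autoImplicit false
set_option linter.unusedSectionVars false

open Filter Topology Set Metric unitInterval

namespace Pool.Agent.Y330.N

open Pool.Agent.H721R2 Pool.Agent.H789R2.AN Pool.Agent.H789R2.GP Pool.Agent.TH304.K289
open Pool.Agent.TH289.L Pool.Agent.TH289.K
open Pool.Agent.Y330.G Pool.Agent.Y330.H

variable {X : Type*} [MetricSpace X] [CompactSpace X] {f : X ≃ₜ X} {c : ℝ}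

theorem zp_iter (f : X ≃ₜ X) (N : ℕ) (q : ℤ) (x : X) :
    ((iterHomeo f N) ^ q) x = (f ^ ((N : ℤ) * q)) x := by
  obtain ⟨n, rfl | rfl⟩ := Int.eq_nat_or_neg q
  · rw [zp_nat, it_iter, ← zp_nat]
    push_cast
    rfl
  · rw [zp_neg, it_symm_iter, ← zp_neg]
    push_cast
    rw [mul_neg]

theorem zlevel_of_lz (f : X ≃ₜ X) (N : ℕ) (hN : 1 ≤ N) {𝒰 : Set (X × X)}
    (h𝒰 : 𝒰 ∈ 𝓝ˢ (diagonal X)) : ∃ r > 0, ∀ ρ ≤ r, ∀ (i : ℤ) (x y : X),
      Lz (iterHomeo f N) ρ i x y → ZLevel f 𝒰 (N * i) x y := by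
  obtain ⟨ε, hε, h1⟩ := (diag_iff _).1 h𝒰
  obtain ⟨η, hη, h2⟩ := T1_unif f.symm N hε
  have hN' : (0 : ℤ) < N := by omega
  refine ⟨η / 2, half_pos hη, fun ρ hρ i x y h n hn => h1 _ _ ?_⟩
  have hq : i ≤ n / N := (Int.le_ediv_iff_mul_le hN').2 (by rw [mul_comm]; exact hn)
  obtain ⟨m, hm⟩ : ∃ m : ℕ, (m : ℤ) = n % N :=
    ⟨(n % N).toNat, Int.toNat_of_nonneg (Int.emod_nonneg _ hN'.ne')⟩
  have hm2 : m ≤ N := by
    have := Int.emod_lt_of_pos n hN'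
    omega
  have e : ∀ z : X, (f ^ (-n)) z = f.symm^[m] (((iterHomeo f N) ^ (-(n / N))) z) := by
    intro z
    rw [zp_iter, ← zp_neg, ← zp_add, hm]
    congr 2
    have := Int.emod_add_mul_ediv n N
    rw [mul_neg, ← neg_add, this]
  rw [e, e]
  exact h2 m hm2 _ _ (lt_of_le_of_lt (h _ hq) (by linarith))

theorem lz_of_zlevel {N : ℕ} (hN : 1 ≤ N) (hg : LP (iterHomeo f N) c)
    {𝒰 : Set (X × X)} (hc : ∀ p ∈ 𝒰, dist p.1 p.2 ≤ c) {ρ : ℝ} {a : ℕ}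
    (ha : c * (1 / 2) ^ a ≤ ρ) {m : ℤ} {x y : X} (h : ZLevel f 𝒰 m x y) :
    Lz (iterHomeo f N) ρ (a + (m / N + 1)) x y := by
  have hN' : (0 : ℤ) < N := by omega
  have h1 : Lz (iterHomeo f N) c (m / N + 1) x y := by
    intro n hn
    rw [zp_iter, zp_iter, mul_neg]
    refine hc _ (h _ ?_)
    have h2 : m < N * (m / N + 1) := Int.lt_mul_ediv_self_add hN' |>.trans_eq (by ring)
    exact h2.le.trans (mul_le_mul_of_nonneg_left hn hN'.le)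
  have h3 := sr_back hg ha (lz_iff.1 h1)
  rw [← zp_neg, ← zp_neg, ← zp_add, ← zp_add] at h3
  rw [lz_iff]
  rwa [show -((a : ℤ) + (m / N + 1)) = -(a : ℤ) + -(m / N + 1) by ring]

/-- a strip gives a stable path -/
theorem path_of_strip {N : ℕ} (hN : 1 ≤ N) (hg : LP (iterHomeo f N) c)
    (Δ : C(I, Pr (iterHomeo f N).symm)) : ∃ y : C(I, X), (∀ r, y r = (Δ r).y) ∧ StablePath f y := by
  obtain ⟨υ, hυ⟩ := side Δ
  refine ⟨⟨fun r => (υ r).val, SM.val_continuous.comp υ.continuous⟩, hυ, ?_⟩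
  rw [stablePath_iff]
  apply Con.of_iter hN
  intro ε hε
  obtain ⟨n, hn⟩ := path_small hg υ hε
  exact ⟨n, fun m hm t => by simpa using hn m hm t 0⟩

theorem related_of_strip {N : ℕ} (hN : 1 ≤ N) {τ : C(I, SM (iterHomeo f N))}
    {Δ Δ' : C(I, Pr (iterHomeo f N).symm)} (h : Over τ Δ) (h' : Over τ Δ') {x y : C(I, X)}
    (hx : ∀ r, x r = (Δ r).y) (hy : ∀ r, y r = (Δ' r).y) : UnstablyRelated f x y := by
  have h1 := strip_con (g := (iterHomeo f N).symm) Δ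
  have h2 := strip_con (g := (iterHomeo f N).symm) Δ'
  have h3 : Con (iterHomeo f N).symm (fun r => x r) (fun r => y r) := by
    intro ε hε
    obtain ⟨n, hn⟩ := h1 (ε / 2) (half_pos hε)
    obtain ⟨n', hn'⟩ := h2 (ε / 2) (half_pos hε)
    refine ⟨max n n', fun m hm t => ?_⟩
    have a1 := hn m ((le_max_left _ _).trans hm) t
    have a2 := hn' m ((le_max_right _ _).trans hm) t
    simp only [h t, h' t, ← hx, ← hy] at a1 a2
    have := dist_triangle_left ((iterHomeo f N).symm^[m] (x t)) ((iterHomeo f N).symm^[m] (y t))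
      ((iterHomeo f N).symm^[m] (τ t).val)
    linarith
  rw [it_symm] at h3
  have h4 : Con f.symm (fun r => x r) (fun r => y r) := Con.of_iter hN h3
  intro 𝒰 h𝒰
  obtain ⟨ε, hε, h5⟩ := (diag_iff _).1 h𝒰
  obtain ⟨n, hn⟩ := h4 (ε / 2) (half_pos hε)
  filter_upwards [eventually_ge_atTop n] with m hm s
  exact h5 _ _ (lt_of_le_of_lt (hn m hm s) (half_lt_self hε))

theorem ZLevel.shift {𝒰 : Set (X × X)} {i n : ℤ} {x y : X} :
    ZLevel f 𝒰 i ((f ^ n) x) ((f ^ n) y) ↔ ZLevel f 𝒰 (i - n) x y := by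
  constructor
  · intro h m hm
    have := h (m + n) (by omega)
    rw [← zp_add, ← zp_add] at this
    rwa [show -(m + n) + n = -m by ring] at this
  · intro h m hm
    have := h (m - n) (by omega)
    rw [← zp_add, ← zp_add]
    rwa [show -(m - n) = -m + n by ring] at this

theorem CrossRatioLE.shift {𝒰 : Set (X × X)} {i : ℤ} (n : ℤ) {x y z w : X} :
    CrossRatioLE f 𝒰 i ((f ^ n) x) ((f ^ n) y) ((f ^ n) z) ((f ^ n) w) ↔
      CrossRatioLE f 𝒰 i x y z w := by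
  constructor
  · rintro ⟨a, b, c, d, h1, h2, h3, h4, h5⟩
    rw [ZLevel.shift] at h1 h2 h3 h4
    exact ⟨_, _, _, _, h1, h2, h3, h4, by omega⟩
  · rintro ⟨a, b, c, d, h1, h2, h3, h4, h5⟩
    refine ⟨a + n, b + n, c + n, d + n, ?_, ?_, ?_, ?_, by omega⟩ <;>
    · rw [ZLevel.shift, add_sub_cancel_right]
      assumption

/-- the union of the stable leaves of the points of the orbit of `p` -/
def Orb (g : X ≃ₜ X) (p : X) : Set X := {x | ∃ m : ℤ, WS g ((g ^ m) p) x}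

theorem orb_sat (g : X ≃ₜ X) (p : X) : ∀ x ∈ Orb g p, ∀ y, WS g x y → y ∈ Orb g p :=
  fun _ ⟨m, hm⟩ _ hy => ⟨m, hm.trans hy⟩

theorem orb_inv (g : X ≃ₜ X) (p : X) (x : X) : g x ∈ Orb g p ↔ x ∈ Orb g p := by
  have e1 : ∀ z : X, (g ^ (1 : ℤ)) z = g z := fun z => zp_nat g 1 z
  have e2 : ∀ z : X, (g ^ (-1 : ℤ)) z = g.symm z := fun z => zp_neg g 1 z
  constructor
  · rintro ⟨m, hm⟩
    have h1 : WS g (g.symm ((g ^ m) p)) (g.symm (g x)) :=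
      hm.map (φ := g.symm) (fun x => by rw [g.symm_apply_apply, g.apply_symm_apply])
    rw [g.symm_apply_apply, ← e2, ← zp_add] at h1
    exact ⟨_, h1⟩
  · rintro ⟨m, hm⟩
    have h1 : WS g (g ((g ^ m) p)) (g x) := hm.map (φ := g) (fun _ => rfl)
    rw [← e1 ((g ^ m) p), ← zp_add] at h1
    exact ⟨_, h1⟩

theorem orb_self (g : X ≃ₜ X) (p : X) : p ∈ Orb g p :=
  ⟨0, by rw [zp_zero]; exact WS.refl _ _⟩

/-- moving a path by an iterate of `f` -/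
theorem move_path (n : ℤ) {y : C(I, X)} (hy : StablePath f y) : ∃ y' : C(I, X),
    (∀ r, y' r = (f ^ n) (y r)) ∧ StablePath f y' := by
  refine ⟨⟨fun r => (f ^ n) (y r), (f ^ n).continuous.comp y.continuous⟩, fun _ => rfl, ?_⟩
  rw [stablePath_iff] at hy ⊢
  intro ε hε
  have hu : UniformContinuous (f ^ n) :=
    CompactSpace.uniformContinuous_of_continuous (f ^ n).continuous
  rw [Metric.uniformContinuous_iff] at hu
  obtain ⟨δ, hδ, h1⟩ := hu ε hε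
  obtain ⟨m, hm⟩ := hy (δ / 2) (half_pos hδ)
  refine ⟨m, fun k hk t => ?_⟩
  show dist (f^[k] ((f ^ n) (y 0))) (f^[k] ((f ^ n) (y t))) ≤ ε
  rw [← iter_comm (g := f) (φ := f ^ n) (zp_comm' f n), ← iter_comm (g := f) (φ := f ^ n) (zp_comm' f n)]
  exact (h1 (lt_of_le_of_lt (hm k hk t) (half_lt_self hδ))).le

theorem move_rel (n : ℤ) {x y x' y' : C(I, X)} (h : UnstablyRelated f x y)
    (hx : ∀ r, x' r = (f ^ n) (x r)) (hy : ∀ r, y' r = (f ^ n) (y r)) :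
    UnstablyRelated f x' y' := by
  intro 𝒰 h𝒰
  obtain ⟨ε, hε, h5⟩ := (diag_iff _).1 h𝒰
  have hu : UniformContinuous (f ^ n) :=
    CompactSpace.uniformContinuous_of_continuous (f ^ n).continuous
  rw [Metric.uniformContinuous_iff] at hu
  obtain ⟨δ, hδ, h1⟩ := hu ε hε
  filter_upwards [h {p | dist p.1 p.2 < δ} ((diag_iff _).2 ⟨δ, hδ, fun x y h => h⟩)] with m hm s
  have e : dist (f.symm^[m] (x s)) (f.symm^[m] (y s)) < δ := hm s
  rw [hx, hy, ← iter_comm (g := f.symm) (φ := f ^ n) (zp_comm f n),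
    ← iter_comm (g := f.symm) (φ := f ^ n) (zp_comm f n)]
  exact h5 _ _ (h1 e)

theorem sameLeaf_of_ws {N : ℕ} (hN : 1 ≤ N) {p x : X} {m : ℤ}
    (h : WS (iterHomeo f N) (((iterHomeo f N) ^ m) p) x) :
    SameStableLeaf f p ((f ^ (-((N : ℤ) * m))) x) := by
  have h1 : WS (iterHomeo f N) p (((iterHomeo f N) ^ (-m)) x) := by
    have := h.map (φ := (iterHomeo f N) ^ (-m)) (zp_comm' _ _)
    rwa [zp_cancel'] at this
  rw [zp_iter, mul_neg] at h1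
  have h2 : Con f (fun _ : Unit => p) (fun _ => (f ^ (-((N : ℤ) * m))) x) := by
    apply Con.of_iter hN
    intro ε hε
    obtain ⟨n, hn⟩ := h1.eventually_lt hε
    exact ⟨n, fun k hk _ => (hn k hk).le⟩
  intro 𝒰 h𝒰
  obtain ⟨ε, hε, h5⟩ := (diag_iff _).1 h𝒰
  obtain ⟨n, hn⟩ := h2 (ε / 2) (half_pos hε)
  filter_upwards [eventually_ge_atTop n] with k hk
  exact h5 _ _ (lt_of_le_of_lt (hn k hk ()) (half_lt_self hε))

theorem qm_of {N : ℕ} (hN : 1 ≤ N) (hg : LP (iterHomeo f N) c)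
    {𝒰 : Set (X × X)} (h𝒰 : 𝒰 ∈ 𝓝ˢ (diagonal X)) (hc : ∀ p ∈ 𝒰, dist p.1 p.2 ≤ c) {p₀ : X}
    (hQ : QuasiMoebiusAlong f 𝒰 p₀) : ∃ r > 0, ∀ ρ > 0, ρ ≤ r → ρ ≤ c →
      QM (iterHomeo f N) ρ (Orb (iterHomeo f N) p₀) := by
  obtain ⟨r, hr, h1⟩ := zlevel_of_lz f N hN h𝒰
  have hN' : (0 : ℤ) < N := by omega
  refine ⟨r, hr, fun ρ hρ hρr hρc i => ?_⟩
  obtain ⟨A, hA⟩ := pw (c := c) hρ
  obtain ⟨k, hk⟩ := hQ (N * (4 + 2 * A + i))
  refine ⟨2 * A + 4 + |k|, ?_⟩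
  rintro τ x y z w x' y' z' w' ⟨m₀, hm₀⟩ ⟨Δ₁, a1, a2, a3⟩ ⟨Δ₂, b1, b2, b3⟩ ⟨Δ₃, c1, c2, c3⟩
    ⟨Δ₄, d1, d2, d3⟩ hxy hzw hxz hyw hlev
  obtain ⟨p₁, p1, p2⟩ := path_of_strip hN hg Δ₁
  obtain ⟨p₂, p3, p4⟩ := path_of_strip hN hg Δ₂
  obtain ⟨p₃, p5, p6⟩ := path_of_strip hN hg Δ₃
  obtain ⟨p₄, p7, p8⟩ := path_of_strip hN hg Δ₄
  have L1 : Lft (iterHomeo f N) τ x x' := ⟨Δ₁, a1, a2, a3⟩
  have L2 : Lft (iterHomeo f N) τ y y' := ⟨Δ₂, b1, b2, b3⟩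
  have L3 : Lft (iterHomeo f N) τ z z' := ⟨Δ₃, c1, c2, c3⟩
  have L4 : Lft (iterHomeo f N) τ w w' := ⟨Δ₄, d1, d2, d3⟩
  have W : ∀ {u v : X}, WS (iterHomeo f N).symm (τ 0).val u → WS (iterHomeo f N).symm (τ 0).val v →
      WS (iterHomeo f N).symm u v := fun h h' => h.symm'.trans h'
  have W' : ∀ {u v : X}, WS (iterHomeo f N).symm (τ 1).val u → WS (iterHomeo f N).symm (τ 1).val v →
      WS (iterHomeo f N).symm u v := fun h h' => h.symm'.trans h'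
  have lvl : ∀ {u v : X} {i : ℤ}, u ≠ v → WS (iterHomeo f N).symm u v →
      (Lz (iterHomeo f N) ρ i u v ↔ lev (iterHomeo f N) ρ u v ≤ i) :=
    fun h h' => lz_lev hg hρ hρc h h'
  have up : ∀ {u v : X}, u ≠ v → WS (iterHomeo f N).symm u v →
      ZLevel f 𝒰 (N * lev (iterHomeo f N) ρ u v) u v := fun h h' =>
    h1 ρ hρr _ _ _ ((lvl h h').2 le_rfl)
  have dn : ∀ {u v : X}, u ≠ v → WS (iterHomeo f N).symm u v →
      ¬ ZLevel f 𝒰 (N * (lev (iterHomeo f N) ρ u v - 2 - A)) u v := by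
    intro u v h h' hcon
    have e := lz_of_zlevel hN hg hc hA hcon
    rw [Int.mul_ediv_cancel_left _ hN'.ne', lvl h h'] at e
    omega
  obtain ⟨q₁, q1, q2⟩ := move_path (-((N : ℤ) * m₀)) p2
  obtain ⟨q₂, q3, q4⟩ := move_path (-((N : ℤ) * m₀)) p4
  obtain ⟨q₃, q5, q6⟩ := move_path (-((N : ℤ) * m₀)) p6
  obtain ⟨q₄, q7, q8⟩ := move_path (-((N : ℤ) * m₀)) p8
  have key := hk q₁ q₂ q₃ q₄ (by
      rw [q1, p1, a2]
      exact sameLeaf_of_ws hN hm₀) q2 q4 q6 q8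
    (move_rel _ (related_of_strip hN a1 b1 p1 p3) q1 q3)
    (move_rel _ (related_of_strip hN a1 c1 p1 p5) q1 q5)
    (move_rel _ (related_of_strip hN a1 d1 p1 p7) q1 q7)
    (by
      rw [q1, q3, q5, q7, CrossRatioLE.shift, p1, p3, p5, p7, a2, b2, c2, d2]
      refine ⟨_, _, _, _, up hxy (W L1.ws0 L2.ws0), up hzw (W L3.ws0 L4.ws0),
        dn hxz (W L1.ws0 L3.ws0), dn hyw (W L2.ws0 L4.ws0), ?_⟩
      nlinarith)
  rw [q1, q3, q5, q7, CrossRatioLE.shift, p1, p3, p5, p7, a3, b3, c3, d3] at key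
  obtain ⟨a, b, c', d, k1, k2, k3, k4, k5⟩ := key
  have e1 : x' ≠ y' := fun e => hxy (L1.inj hg (e ▸ L2))
  have e2 : z' ≠ w' := fun e => hzw (L3.inj hg (e ▸ L4))
  have e3 : x' ≠ z' := fun e => hxz (L1.inj hg (e ▸ L3))
  have e4 : y' ≠ w' := fun e => hyw (L2.inj hg (e ▸ L4))
  have m1 := lz_of_zlevel hN hg hc hA k1
  have m2 := lz_of_zlevel hN hg hc hA k2
  rw [lvl e1 (W' L1.ws1 L2.ws1)] at m1
  rw [lvl e2 (W' L3.ws1 L4.ws1)] at m2
  have lo : ∀ {u v : X} {m : ℤ}, u ≠ v → WS (iterHomeo f N).symm u v → ¬ ZLevel f 𝒰 m u v →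
      m / N < lev (iterHomeo f N) ρ u v := by
    intro u v m h h' hn
    by_contra hcon
    push Not at hcon
    apply hn
    have e := h1 ρ hρr _ _ _ ((lvl h h').2 hcon)
    intro n hnn
    exact e n ((Int.mul_ediv_self_le hN'.ne').trans hnn)
  have m3 := lo e3 (W' L1.ws1 L3.ws1) k3
  have m4 := lo e4 (W' L2.ws1 L4.ws1) k4
  have o1 := Int.mul_ediv_self_le (x := a) hN'.ne'
  have o2 := Int.mul_ediv_self_le (x := b) hN'.ne'
  have o3 := Int.lt_mul_ediv_self_add (x := c') hN'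
  have o4 := Int.lt_mul_ediv_self_add (x := d) hN'
  have hka : k ≤ |k| := le_abs_self k
  have hk0 : 0 ≤ |k| := abs_nonneg k
  have hfin : a / N + b / N ≤ c' / N + d / N + 2 + |k| := by
    by_contra hcon
    push Not at hcon
    have h5 : (N : ℤ) * (c' / N + d / N + 2 + |k| + 1) ≤ N * (a / N + b / N) :=
      mul_le_mul_of_nonneg_left (by omega) hN'.le
    have h6 : |k| ≤ N * |k| := by nlinarith
    nlinarith
  omega

end Pool.Agent.Y330.N
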