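import Pool.Agent.Y330.N.B4
import Pool.Agent.Y330.J.A7

set_option autoImplicit false
set_option linter.unusedSectionVars false

open Filter Topology Set Metric
open scoped Manifold ContDiff Pointwise

namespace Pool.Agent.Y330.N

open Pool.Agent.H721R2 Pool.Agent.H789R2.AN Pool.Agent.H789R2.GP Pool.Agent.TH304.K289
open Pool.Agent.TH289.L Pool.Agent.TH289 Pool.Agent.TH289.K
open Pool.Agent.Y330.G Pool.Agent.Y330.H Pool.Agent.Y330.J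
open Pool.Agent.W740.TU (anosov_symm transitive_symm)

section abs

variable {X : Type*} [MetricSpace X] [CompactSpace X]

/-- the abstract theorem -/
theorem abs_qm [ConnectedSpace X] {f : X ≃ₜ X} {N : ℕ} (hN : 1 ≤ N) {c : ℝ}
    (hg : LP (iterHomeo f N) c) (hX : ULC X) {𝒰 : Set (X × X)} (h𝒰 : 𝒰 ∈ 𝓝ˢ (diagonal X))
    (hc : ∀ p ∈ 𝒰, dist p.1 p.2 ≤ c) {p : X} (hQ : QuasiMoebiusAlong f 𝒰 p) :
    GPS f ∧ PG X ∧ BoundedHolonomy f 𝒰 := by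
  have key : (∀ a s, WS (iterHomeo f N) a s → Lf (iterHomeo f N) a s) ∧ PG X ∧
      BoundedHolonomy f 𝒰 := by
    rcases subsingleton_or_nontrivial X with hsub | hnt
    · exact ⟨lf_trivial, pg_trivial, bhol_trivial f⟩
    · have hc0 := hg.c_pos
      obtain ⟨c₁, hc₁, hs⟩ := exists_sl hg
      obtain ⟨c₂, hc₂, hs'⟩ := exists_sl hg.symm
      obtain ⟨r, hr, h1⟩ := qm_of hN hg h𝒰 hc hQ
      obtain ⟨r', hr', h2⟩ := zlevel_of_lz f N hN h𝒰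
      set c₃ := min c (min c₁ c₂) with hc₃
      have hc₃0 : 0 < c₃ := by positivity
      have k0 : c₃ ≤ c := min_le_left _ _
      have k1 : c₃ ≤ c₁ := (min_le_right _ _).trans (min_le_left _ _)
      have k2 : c₃ ≤ c₂ := (min_le_right _ _).trans (min_le_right _ _)
      set ρ := min (min r r') (c₃ / 4) with hρ
      have hρ0 : 0 < ρ := by positivity
      have k3 : ρ ≤ r := (min_le_left _ _).trans (min_le_left _ _)
      have k3' : ρ ≤ r' := (min_le_left _ _).trans (min_le_right _ _)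
      have k4 : ρ ≤ c₃ / 4 := min_le_right _ _
      have hQ' := h1 ρ hρ0 k3 (by linarith)
      have hB := bd_qm hg hX hc₃0 (hs.mono k1) (hs'.mono k2) hρ0 (by linarith) (by linarith)
        (S := Orb (iterHomeo f N) p) ⟨p, orb_self _ p⟩ (orb_inv _ p) (orb_sat _ p) hQ'
      obtain ⟨K', hK'⟩ := bd_strip hg hX hc₃0 (hs.mono k1) (hs'.mono k2) hρ0 (by linarith)
        (by linarith) (S := Orb (iterHomeo f N) p) ⟨p, orb_self _ p⟩ (orb_inv _ p) (orb_sat _ p) hQ'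
      have hlf := lf_all' hg hX hc₃0 (hs.mono k1) hρ0 (by linarith) hB
      obtain ⟨K, hK⟩ := hB
      exact ⟨hlf, growth hg hX k0 (hs.mono k1) (ex_of_lf hg hc₃0 (hs.mono k1) hlf) hρ0
        (by linarith) hK, bhol_of hN hg hc h2 hρ0 k3' hK'⟩
  refine ⟨?_, key.2⟩
  obtain ⟨c₁, hc₁, ⟨T⟩⟩ := exists_IQS hg hX key.1
  exact gps_of_iqs hN rfl hg hc₁ T

end abs

section manifold

variable {E : Type*} [NormedAddCommGroup E] [NormedSpace ℝ E] [FiniteDimensional ℝ E]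
  {M : Type*} [TopologicalSpace M] [T2Space M] [CompactSpace M] [ConnectedSpace M]
  [ChartedSpace E M] [IsManifold 𝓘(ℝ, E) ∞ M]

theorem man_qm (f : Diffeomorph 𝓘(ℝ, E) 𝓘(ℝ, E) M M 1)
    (Es Eu : ∀ x : M, Submodule ℝ (TangentSpace 𝓘(ℝ, E) x)) (hA : IsAnosov f Es Eu) :
    ∃ 𝒰₀ ∈ 𝓝ˢ (diagonal M), ∀ 𝒰 ∈ 𝓝ˢ (diagonal M), 𝒰 ⊆ 𝒰₀ → ∀ p : M,
      (QuasiMoebiusAlong f.toHomeomorph 𝒰 p ↔ BoundedHolonomy f.toHomeomorph 𝒰) ∧
      (QuasiMoebiusAlong f.toHomeomorph 𝒰 p → GPS f.toHomeomorph ∧ PG M) := by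
  obtain ⟨m, ee, hee, hemb, hinje⟩ :=
    exists_embedding_euclidean_of_compact (I := 𝓘(ℝ, E)) (M := M)
  let _ : MetricSpace M := hemb.isEmbedding.comapMetricSpace ee
  have hiso : ∀ x y : M, dist x y = ‖ee x - ee y‖ := fun x y => dist_eq_norm (ee x) (ee y)
  have he1 : ContMDiff 𝓘(ℝ, E) (𝓡 m) 1 ee := hee.of_le (by simp)
  obtain ⟨N, ⟨S, hg, -, -, -⟩, hN⟩ :=
    ((exists_sys_ev hiso he1 hinje f Es Eu hA).and (eventually_ge_atTop 1)).exists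
  have : ProperSpace E := FiniteDimensional.proper_real E
  obtain ⟨c, hLP⟩ := exists_LP S
  rw [hg] at hLP
  have hX : ULC M := ulc_of_charted (X := M) (E := E)
  refine ⟨{p | dist p.1 p.2 < c}, (diag_iff _).2 ⟨c, hLP.c_pos, fun x y h => h⟩,
    fun 𝒰 h𝒰 hsub p => ⟨⟨fun hQ => ?_, fun h => qm_of_bounded h p⟩, fun hQ => ?_⟩⟩
  · exact (abs_qm hN hLP hX h𝒰 (fun p hp => (hsub hp : dist p.1 p.2 < c).le) hQ).2.2
  · have := abs_qm hN hLP hX h𝒰 (fun p hp => (hsub hp : dist p.1 p.2 < c).le) hQ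
    exact ⟨this.1, this.2.1⟩

/-- the form for both foliations -/
theorem man_qm2 (f : Diffeomorph 𝓘(ℝ, E) 𝓘(ℝ, E) M M 1)
    (Es Eu : ∀ x : M, Submodule ℝ (TangentSpace 𝓘(ℝ, E) x)) (hA : IsAnosov f Es Eu) :
    ∃ 𝒰₀ ∈ 𝓝ˢ (diagonal M), ∀ 𝒰 ∈ 𝓝ˢ (diagonal M), 𝒰 ⊆ 𝒰₀ → ∀ p : M,
      (QuasiMoebiusAlong f.toHomeomorph 𝒰 p ↔ BoundedHolonomy f.toHomeomorph 𝒰) ∧
      (QuasiMoebiusAlong f.toHomeomorph.symm 𝒰 p ↔ BoundedHolonomy f.toHomeomorph.symm 𝒰) ∧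
      (QuasiMoebiusAlong f.toHomeomorph 𝒰 p ∨ QuasiMoebiusAlong f.toHomeomorph.symm 𝒰 p →
      TopTransitive f ∧ GPS f.toHomeomorph ∧ (∃ π : E → M, IsCoveringMap π ∧
        Function.Surjective π) ∧ ∃ d : ℕ, ∀ (x : M) (S : Set (FundamentalGroup M x)), S.Finite →
        ∃ C : ℕ, ∀ n : ℕ, (S ^ n).ncard ≤ C * (n + 1) ^ d) := by
  obtain ⟨𝒰₁, h1, h2⟩ := man_qm f Es Eu hA
  obtain ⟨𝒰₂, h3, h4⟩ := man_qm f.symm Eu Es (anosov_symm f Es Eu hA)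
  refine ⟨𝒰₁ ∩ 𝒰₂, inter_mem h1 h3, fun 𝒰 h𝒰 hsub p =>
    ⟨(h2 𝒰 h𝒰 (hsub.trans inter_subset_left) p).1,
      (h4 𝒰 h𝒰 (hsub.trans inter_subset_right) p).1, fun hQ => ?_⟩⟩
  have hG : GPS f.toHomeomorph ∧ PG M := by
    rcases hQ with hQ | hQ
    · exact (h2 𝒰 h𝒰 (hsub.trans inter_subset_left) p).2 hQ
    · have := (h4 𝒰 h𝒰 (hsub.trans inter_subset_right) p).2 hQ
      exact ⟨this.1.symm, this.2⟩
  obtain ⟨k1, k2⟩ := man_self f Es Eu hA hG.1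
  exact ⟨k1, hG.1, k2, hG.2⟩

end manifold

end Pool.Agent.Y330.N
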