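import Pool.Agent.Y330.N.B2

set_option autoImplicit false
set_option linter.unusedSectionVars false

open Filter Topology Set Metric unitInterval

namespace Pool.Agent.Y330.N

open Pool.Agent.H721R2 Pool.Agent.H789R2.AN Pool.Agent.H789R2.GP Pool.Agent.TH304.K289
open Pool.Agent.TH289.L Pool.Agent.TH289.K
open Pool.Agent.Y330.G Pool.Agent.Y330.H

variable {X : Type*} [MetricSpace X] [CompactSpace X]

section base

variable {g : X ≃ₜ X} {c : ℝ}

/-- the uniform bound for all strips -/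
theorem bd_strip [ConnectedSpace X] [Nontrivial X] (hg : LP g c) (hX : ULC X) {c₁ : ℝ}
    (hc₁ : 0 < c₁) (hs : Sl g c c₁) (hs' : Sl g.symm c c₁) {ρ : ℝ} (hρ0 : 0 < ρ)
    (hρ : 2 * ρ ≤ c₁) (hρc : ρ ≤ c / 4) {S : Set X} (hS0 : S.Nonempty)
    (hSi : ∀ x, g x ∈ S ↔ x ∈ S) (hS : ∀ x ∈ S, ∀ y, WS g x y → y ∈ S)
    (hQ : QM g ρ S) : ∃ K : ℕ, ∀ (τ : C(I, SM g)) (y p : X) (i : ℤ), Lz g ρ i (τ 0).val y →
      Lft g τ y p → Lz g ρ (i + K) (τ 1).val p := by
  have hc := hg.c_pos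
  have hatt : IsAtt g.symm (_root_.closure S) := by
    refine ⟨isClosed_closure, hS0.closure, ?_, closure_sat hg.symm hS⟩
    intro x
    have e2 := g.symm.preimage_closure S
    have e3 : g.symm ⁻¹' S = S := by
      ext z
      exact inv_symm hSi z
    rw [e3] at e2
    exact Set.ext_iff.1 e2 x
  obtain ⟨R, hRS, hR⟩ := exists_minAtt hatt
  have hQ' : QM g ρ R := (hQ.closure hg hc₁ hs' hρ0 (by linarith) hS).mono hRS
  have hRu : R = univ := no_repeller' hg hX hc₁ hs hρ0 hρ hR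
    (bounded_rc hg hX hc₁ hs hs' hρ0 hρc hQ' hR)
  rw [hRu] at hR hQ'
  obtain ⟨K, hK⟩ := bounded_strip hg hX hc₁ hs hs' hρ0 hρc hQ' hR
  refine ⟨K, fun τ y p i h1 h2 => ?_⟩
  have h3 := hK (zpath (-i) τ) (mem_univ _) ((g ^ (-i)) y) ((g ^ (-i)) p)
    (by
      rw [← lz_zero, zpath_apply, Lz.shift]
      exact h1.mono (by omega)) (h2.shift (-i))
  rw [zpath_apply, Lz.shift] at h3
  exact h3.mono (by omega)

/-- a pair of related paths gives a strip -/
theorem strip_of_paths {x y : C(I, X)}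
    (hx : Con g (fun _ : I => x 0) (fun t => x t)) (hy : Con g (fun _ : I => y 0) (fun t => y t))
    (hxy : Con g.symm (fun t => x t) (fun t => y t)) : ∃ (τ : C(I, SM g)), (∀ r, (τ r).val = x r) ∧
      Lft g τ (y 0) (y 1) := by
  have mk : ∀ {x : C(I, X)}, Con g (fun _ : I => x 0) (fun t => x t) →
      Continuous (fun t => (⟨x t⟩ : SM g)) := by
    intro x hx
    rw [Metric.continuous_iff']
    intro t ε hε
    filter_upwards [hx.cont x.continuous t (half_pos hε)] with r hr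
    have h5 : dist (⟨x r⟩ : SM g) ⟨x t⟩ ≤ ε / 2 :=
      (SM.dist_le _ _ (half_pos hε).le).2 hr.symm'
    exact lt_of_le_of_lt h5 (half_lt_self hε)
  have hcont : Continuous fun t : I => (⟨x t, y t, hxy.toWS t⟩ : Pr g.symm) := by
    rw [Pr.continuous_iff]
    refine ⟨mk hx, mk hy, fun a ε hε => ?_⟩
    obtain ⟨n, hn⟩ := hxy ε hε
    exact ⟨n, Eventually.of_forall fun t k hk => hn k hk t⟩
  exact ⟨⟨_, mk hx⟩, fun _ => rfl, ⟨_, hcont⟩, fun _ => rfl, rfl, rfl⟩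

end base

variable {f : X ≃ₜ X} {c : ℝ}

theorem con_of_rel {x y : C(I, X)} (h : UnstablyRelated f x y) :
    Con f.symm (fun t => x t) (fun t => y t) := by
  intro ε hε
  have h1 : {p : X × X | dist p.1 p.2 < ε} ∈ 𝓝ˢ (diagonal X) :=
    (diag_iff _).2 ⟨ε, hε, fun x y hxy => hxy⟩
  obtain ⟨n, hn⟩ := eventually_atTop.1 (h _ h1)
  exact ⟨n, fun m hm t => (hn m hm t : dist _ _ < ε).le⟩

theorem bhol_trivial [Subsingleton X] (f : X ≃ₜ X) {𝒰 : Set (X × X)} :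
    BoundedHolonomy f 𝒰 := by
  refine ⟨0, fun x y _ _ _ i h n hn => ?_⟩
  have := h n (by omega)
  rwa [Subsingleton.elim (x 0) (x 1), Subsingleton.elim (y 0) (y 1)] at this

theorem bhol_of {N : ℕ} (hN : 1 ≤ N) (hg : LP (iterHomeo f N) c)
    {𝒰 : Set (X × X)} (hc : ∀ p ∈ 𝒰, dist p.1 p.2 ≤ c) {r : ℝ}
    (hr : ∀ ρ ≤ r, ∀ (i : ℤ) (x y : X), Lz (iterHomeo f N) ρ i x y → ZLevel f 𝒰 (N * i) x y)
    {ρ : ℝ} (hρ : 0 < ρ) (hρr : ρ ≤ r) {K : ℕ}
    (hK : ∀ (τ : C(I, SM (iterHomeo f N))) (y p : X) (i : ℤ),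
      Lz (iterHomeo f N) ρ i (τ 0).val y → Lft (iterHomeo f N) τ y p →
        Lz (iterHomeo f N) ρ (i + K) (τ 1).val p) : BoundedHolonomy f 𝒰 := by
  obtain ⟨A, hA⟩ := pw (c := c) hρ
  have hN' : (0 : ℤ) < N := by omega
  refine ⟨N * (A + 1 + K), fun x y hx hy hxy i hi => ?_⟩
  rw [stablePath_iff] at hx hy
  have hxy' : Con (iterHomeo f N).symm (fun t => x t) (fun t => y t) := by
    rw [it_symm]
    exact Con.to_iter hN (con_of_rel hxy)
  obtain ⟨τ, hτ, hl⟩ := strip_of_paths (g := iterHomeo f N) (Con.to_iter hN hx)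
    (Con.to_iter hN hy) hxy'
  have h1 := lz_of_zlevel hN hg hc hA hi
  rw [← hτ] at h1
  have h2 := hr ρ hρr _ _ _ (hK τ _ _ _ h1 hl)
  rw [hτ] at h2
  intro n hn
  refine h2 n (le_trans ?_ hn)
  have h3 := Int.mul_ediv_self_le (x := i) hN'.ne'
  nlinarith

theorem rev_stable {x : C(I, X)} (hx : StablePath f x) : ∃ x' : C(I, X),
    (∀ r, x' r = x (σ r)) ∧ StablePath f x' := by
  refine ⟨⟨fun r => x (σ r), by fun_prop⟩, fun _ => rfl, ?_⟩
  rw [stablePath_iff] at hx ⊢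
  intro ε hε
  obtain ⟨n, hn⟩ := hx (ε / 2) (half_pos hε)
  refine ⟨n, fun m hm t => ?_⟩
  show dist (f^[m] (x (σ 0))) (f^[m] (x (σ t))) ≤ ε
  have h1 := hn m hm (σ 0)
  have h2 := hn m hm (σ t)
  have := dist_triangle_left (f^[m] (x (σ 0))) (f^[m] (x (σ t))) (f^[m] (x 0))
  linarith

theorem rel_trans {x y z : C(I, X)} (h : UnstablyRelated f x y) (h' : UnstablyRelated f x z) :
    UnstablyRelated f y z := by
  have h1 := con_of_rel h
  have h2 := con_of_rel h'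
  intro 𝒰 h𝒰
  obtain ⟨ε, hε, h5⟩ := (diag_iff _).1 h𝒰
  obtain ⟨n, hn⟩ := h1 (ε / 3) (by positivity)
  obtain ⟨n', hn'⟩ := h2 (ε / 3) (by positivity)
  filter_upwards [eventually_ge_atTop n, eventually_ge_atTop n'] with m hm hm' s
  refine h5 _ _ ?_
  have a1 := hn m hm s
  have a2 := hn' m hm' s
  have := dist_triangle_left (f.symm^[m] (y s)) (f.symm^[m] (z s)) (f.symm^[m] (x s))
  linarith

/-- bounded holonomies are quasi-Möbius -/
theorem qm_of_bounded {𝒰 : Set (X × X)} (h : BoundedHolonomy f 𝒰) (p : X) :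
    QuasiMoebiusAlong f 𝒰 p := by
  obtain ⟨k, hk⟩ := h
  have hrev : ∀ x y : C(I, X), StablePath f x → StablePath f y → UnstablyRelated f x y →
      ∀ i : ℤ, ZLevel f 𝒰 i (x 1) (y 1) → ZLevel f 𝒰 (i + k) (x 0) (y 0) := by
    intro x y hx hy hxy i hi
    obtain ⟨x', h1, h2⟩ := rev_stable hx
    obtain ⟨y', h3, h4⟩ := rev_stable hy
    have := hk x' y' h2 h4 (by
      intro 𝒱 h𝒱
      filter_upwards [hxy 𝒱 h𝒱] with n hn s
      rw [h1, h3]
      exact hn (σ s)) i (by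
      rw [h1, h3, unitInterval.symm_zero]
      exact hi)
    rwa [h1, h3, unitInterval.symm_one] at this
  intro i
  refine ⟨i + 4 * k, fun x y z w _ hx hy hz hw hxy hxz hxw ⟨a, b, c', d, h1, h2, h3, h4, h5⟩ => ?_⟩
  refine ⟨a + k, b + k, c' - k, d - k, hk x y hx hy hxy a h1,
    hk z w hz hw (rel_trans hxz hxw) b h2, fun hcon => h3 ?_, fun hcon => h4 ?_, by omega⟩
  · have := hrev x z hx hz hxz _ hcon
    rwa [sub_add_cancel] at this
  · have := hrev y w hy hw (rel_trans hxy hxw) _ hcon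
    rwa [sub_add_cancel] at this

end Pool.Agent.Y330.N
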