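import Pool.Agent.Y330.N.B3

set_option autoImplicit false
set_option linter.unusedSectionVars false

open Filter Topology Set Metric unitInterval

namespace Pool.Agent.Y330.N

open Pool.Agent.H721R2 Pool.Agent.H789R2.AN Pool.Agent.H789R2.GP Pool.Agent.TH304.K289
open Pool.Agent.TH289.L Pool.Agent.TH289.K
open Pool.Agent.Y330.G Pool.Agent.Y330.H Pool.Agent.Y330.J

variable {X : Type*} [MetricSpace X] [CompactSpace X]

section base

variable {g : X ≃ₜ X} {c : ℝ}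

/-- bounds for rectangles give bounds for strips -/
theorem strip_of_bd (hg : LP g c) (hX : ULC X) {c₁ : ℝ}
    (hc₁ : 0 < c₁) (hs : Sl g c c₁) {ρ : ℝ} (hρ0 : 0 < ρ)
    (hρ : 2 * ρ ≤ c₁) (hρc : 2 * ρ ≤ c) {K : ℕ} (hB : Bd g ρ K) : ∃ K' : ℕ, ∀ (τ : C(I, SM g))
      (y p : X) (i : ℤ), Lz g ρ i (τ 0).val y → Lft g τ y p → Lz g ρ (i + K') (τ 1).val p := by
  obtain ⟨b, hb⟩ := ball_path hg hX hρ0 (show ρ ≤ c by linarith)
  refine ⟨K + b, fun τ y p i h1 h2 => ?_⟩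
  set τ' := zpath (-i) τ with hτ'
  set y' := (g ^ (-i)) y with hy'
  set p' := (g ^ (-i)) p with hp'
  have h3 : Lz g ρ ((0 : ℕ) : ℤ) (τ' 0).val y' := by
    rw [hτ', zpath_apply, hy', Lz.shift]
    exact h1.mono (by omega)
  have h4 : Lft g τ' y' p' := h2.shift (-i)
  obtain ⟨w, w0, w1, w2⟩ := hb 0 _ _ h3
  have w2' : ∀ t, Lv g ρ b (w 0).val (w t).val := fun t => by
    rw [w0, ← lz_nat]
    have := w2 t
    simpa using this
  obtain ⟨T, t1, t2, t3⟩ := extend hg hc₁ hs (K := K + b) w (fun T hT h0 t => by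
    have hT' : Rc g (fun s' t' => T s' (t * t')) :=
      hT.reparam (a := fun s => s) (b := fun t' => t * t') continuous_id (by fun_prop)
    have := hB.shift b hT' (by
      show Lv g ρ b (T 0 (t * 0)) (T 0 (t * 1))
      rw [mul_zero, mul_one, h0, h0]
      exact w2' t)
    have e : Lv g ρ (K + b) (T 1 (t * 0)) (T 1 (t * 1)) := this
    rw [mul_zero, mul_one] at e
    exact SR.mono e (by linarith)) τ' w0.symm
  have h5 := hB.shift b t1 (by
    rw [t3, t3]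
    exact w2' 1)
  obtain ⟨Δ, d1, d2⟩ := t1.tr.strip 0 1
  have h6 : Lft g τ' y' (T 1 1) := ⟨Δ, fun r => by rw [d1, t2], by rw [d2, t3, w1], d2 1⟩
  rw [h6.unique hg h4, t2, ← lz_nat, hτ', zpath_apply, hp', Lz.shift] at h5
  exact h5.mono (by push_cast; omega)

end base

variable {f : X ≃ₜ X} {c : ℝ}

/-- weakly quasisymmetric holonomies are bounded -/
theorem bounded_of_qs [ConnectedSpace X] {N : ℕ} (hN : 1 ≤ N)
    (hg : LP (iterHomeo f N) c) (hX : ULC X) {𝒰 : Set (X × X)} (h𝒰 : 𝒰 ∈ 𝓝ˢ (diagonal X))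
    (hc : ∀ p ∈ 𝒰, dist p.1 p.2 ≤ c) (hQ : QuasisymmetricHolonomy f 𝒰) :
    BoundedHolonomy f 𝒰 := by
  rcases subsingleton_or_nontrivial X with hsub | hnt
  · exact bhol_trivial f
  · have hc0 := hg.c_pos
    obtain ⟨c₁, hc₁, hs⟩ := exists_sl hg
    obtain ⟨c₂, hc₂, hs'⟩ := exists_sl hg.symm
    obtain ⟨r, hr, h1⟩ := qh_of hN hg h𝒰 hc hQ
    obtain ⟨r', hr', h2⟩ := zlevel_of_lz f N hN h𝒰
    set c₃ := min c (min c₁ c₂) with hc₃
    have hc₃0 : 0 < c₃ := by positivity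
    have k0 : c₃ ≤ c := min_le_left _ _
    have k1 : c₃ ≤ c₁ := (min_le_right _ _).trans (min_le_left _ _)
    have k2 : c₃ ≤ c₂ := (min_le_right _ _).trans (min_le_right _ _)
    set ρ := min (min r r') (c₃ / 4) with hρ
    have hρ0 : 0 < ρ := by positivity
    have k3 : ρ ≤ r := (min_le_left _ _).trans (min_le_left _ _)
    have k3' : ρ ≤ r' := (min_le_left _ _).trans (min_le_right _ _)
    have k4 : ρ ≤ c₃ / 4 := min_le_right _ _
    obtain ⟨a, ha⟩ := h1 ρ hρ0 k3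
    obtain ⟨K, hK⟩ := bd_all hg hX hc₃0 k0 (hs.mono k1) (hs'.mono k2) hρ0 (by linarith)
      (by linarith) ha
    obtain ⟨K', hK'⟩ := strip_of_bd hg hX hc₃0 (hs.mono k1) hρ0 (by linarith) (by linarith) hK
    exact bhol_of hN hg hc h2 hρ0 k3' hK'

/-- bounded holonomies are weakly quasisymmetric -/
theorem qs_of_bounded {𝒰 : Set (X × X)} (h : BoundedHolonomy f 𝒰) :
    QuasisymmetricHolonomy f 𝒰 := by
  obtain ⟨k, hk⟩ := h
  intro i
  refine ⟨k.toNat, fun R R' hR hR' h0 h1 _ _ => ?_⟩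
  have hst : ∀ t : I, StablePath f ⟨fun s => R (s, t), by fun_prop⟩ := by
    intro t
    rw [stablePath_iff]
    intro ε hε
    have h𝒱 : {p : X × X | dist p.1 p.2 < ε / 2} ∈ 𝓝ˢ (diagonal X) :=
      (diag_iff _).2 ⟨ε / 2, half_pos hε, fun x y hxy => hxy⟩
    obtain ⟨n, hn⟩ := eventually_atTop.1 (hR _ h𝒱)
    refine ⟨n, fun m hm s => ?_⟩
    have e : dist (f^[m] (R (0, t))) (f^[m] (R (s, t))) < ε / 2 := (hn m hm s t).1
    show dist (f^[m] (R (0, t))) (f^[m] (R (s, t))) ≤ ε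
    linarith
  have hrel : UnstablyRelated f ⟨fun s => R (s, 0), by fun_prop⟩ ⟨fun s => R (s, 1), by fun_prop⟩ := by
    intro 𝒱 h𝒱
    filter_upwards [hR 𝒱 h𝒱] with n hn s
    exact (hn s 1).2
  have hz : ∀ {x y : X} {j : ℕ}, Level f 𝒰 j x y ↔ ZLevel f 𝒰 j x y := by
    intro x y j
    constructor
    · intro h n hn
      obtain ⟨m, rfl⟩ := Int.eq_ofNat_of_zero_le (le_trans (Int.natCast_nonneg j) hn)
      rw [zp_neg, zp_neg]
      exact h m (by exact_mod_cast hn)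
    · intro h n hn
      have := h n (by exact_mod_cast hn)
      rwa [zp_neg, zp_neg] at this
  have h2 := hk _ _ (hst 0) (hst 1) hrel 0 (by
    have := hz.1 h1
    exact_mod_cast this)
  rw [hz]
  intro n hn
  refine h2 n (le_trans ?_ hn)
  rw [zero_add]
  exact Int.self_le_toNat k

end Pool.Agent.Y330.N
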