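import Pool.Agent.Y330.N.B5

set_option autoImplicit false
set_option linter.unusedSectionVars false

open Filter Topology Set Metric
open scoped Manifold ContDiff Pointwise

namespace Pool.Agent.Y330.N

open Pool.Agent.H721R2 Pool.Agent.H789R2.AN Pool.Agent.H789R2.GP Pool.Agent.TH304.K289
open Pool.Agent.TH289.L Pool.Agent.TH289 Pool.Agent.TH289.K
open Pool.Agent.Y330.G Pool.Agent.Y330.H Pool.Agent.Y330.J
open Pool.Agent.W740.TU (anosov_symm transitive_symm)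

variable {E : Type*} [NormedAddCommGroup E] [NormedSpace ℝ E] [FiniteDimensional ℝ E]
  {M : Type*} [TopologicalSpace M] [T2Space M] [CompactSpace M] [ConnectedSpace M]
  [ChartedSpace E M] [IsManifold 𝓘(ℝ, E) ∞ M]

theorem man_one (f : Diffeomorph 𝓘(ℝ, E) 𝓘(ℝ, E) M M 1)
    (Es Eu : ∀ x : M, Submodule ℝ (TangentSpace 𝓘(ℝ, E) x)) (hA : IsAnosov f Es Eu) :
    ∃ 𝒰₀ ∈ 𝓝ˢ (diagonal M), ∀ 𝒰 ∈ 𝓝ˢ (diagonal M), 𝒰 ⊆ 𝒰₀ →
      (QuasisymmetricHolonomy f.toHomeomorph 𝒰 ↔ BoundedHolonomy f.toHomeomorph 𝒰) ∧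
      (∀ p : M, QuasiMoebiusAlong f.toHomeomorph 𝒰 p ↔ BoundedHolonomy f.toHomeomorph 𝒰) ∧
      (BoundedHolonomy f.toHomeomorph 𝒰 → GPS f.toHomeomorph ∧ PG M) := by
  obtain ⟨m, ee, hee, hemb, hinje⟩ :=
    exists_embedding_euclidean_of_compact (I := 𝓘(ℝ, E)) (M := M)
  let _ : MetricSpace M := hemb.isEmbedding.comapMetricSpace ee
  have hiso : ∀ x y : M, dist x y = ‖ee x - ee y‖ := fun x y => dist_eq_norm (ee x) (ee y)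
  have he1 : ContMDiff 𝓘(ℝ, E) (𝓡 m) 1 ee := hee.of_le (by simp)
  obtain ⟨N, ⟨S, hg, -, -, -⟩, hN⟩ :=
    ((exists_sys_ev hiso he1 hinje f Es Eu hA).and (eventually_ge_atTop 1)).exists
  have : ProperSpace E := FiniteDimensional.proper_real E
  obtain ⟨c, hLP⟩ := exists_LP S
  rw [hg] at hLP
  have hX : ULC M := ulc_of_charted (X := M) (E := E)
  have hne : Nonempty M := inferInstance
  refine ⟨{p | dist p.1 p.2 < c}, (diag_iff _).2 ⟨c, hLP.c_pos, fun x y h => h⟩,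
    fun 𝒰 h𝒰 hsub => ?_⟩
  have hc : ∀ p ∈ 𝒰, dist p.1 p.2 ≤ c := fun p hp => (hsub hp : dist p.1 p.2 < c).le
  refine ⟨⟨fun h => bounded_of_qs hN hLP hX h𝒰 hc h, fun h => qs_of_bounded h⟩,
    fun p => ⟨fun h => (abs_qm hN hLP hX h𝒰 hc h).2.2, fun h => qm_of_bounded h p⟩, fun h => ?_⟩
  obtain ⟨p⟩ := hne
  have := abs_qm hN hLP hX h𝒰 hc (qm_of_bounded h p)
  exact ⟨this.1, this.2.1⟩

/-- the final form -/
theorem man_final (f : Diffeomorph 𝓘(ℝ, E) 𝓘(ℝ, E) M M 1)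
    (Es Eu : ∀ x : M, Submodule ℝ (TangentSpace 𝓘(ℝ, E) x)) (hA : IsAnosov f Es Eu) :
    ∃ 𝒰₀ ∈ 𝓝ˢ (diagonal M), ∀ 𝒰 ∈ 𝓝ˢ (diagonal M), 𝒰 ⊆ 𝒰₀ →
      ∀ g : M ≃ₜ M, (g = f.toHomeomorph ∨ g = f.toHomeomorph.symm) →
      (QuasisymmetricHolonomy g 𝒰 ↔ BoundedHolonomy g 𝒰) ∧
      (∀ p : M, QuasiMoebiusAlong g 𝒰 p ↔ BoundedHolonomy g 𝒰) ∧
      (BoundedHolonomy g 𝒰 → TopTransitive f ∧ GPS f.toHomeomorph ∧
        (∃ π : E → M, IsCoveringMap π ∧ Function.Surjective π) ∧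
        ∃ d : ℕ, ∀ (x : M) (S : Set (FundamentalGroup M x)), S.Finite →
          ∃ C : ℕ, ∀ n : ℕ, (S ^ n).ncard ≤ C * (n + 1) ^ d) := by
  obtain ⟨𝒰₁, h1, h2⟩ := man_one f Es Eu hA
  obtain ⟨𝒰₂, h3, h4⟩ := man_one f.symm Eu Es (anosov_symm f Es Eu hA)
  refine ⟨𝒰₁ ∩ 𝒰₂, inter_mem h1 h3, fun 𝒰 h𝒰 hsub g hg => ?_⟩
  have key : GPS f.toHomeomorph ∧ PG M → TopTransitive f ∧ GPS f.toHomeomorph ∧
        (∃ π : E → M, IsCoveringMap π ∧ Function.Surjective π) ∧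
        ∃ d : ℕ, ∀ (x : M) (S : Set (FundamentalGroup M x)), S.Finite →
          ∃ C : ℕ, ∀ n : ℕ, (S ^ n).ncard ≤ C * (n + 1) ^ d := by
    intro hG
    obtain ⟨k1, k2⟩ := man_self f Es Eu hA hG.1
    exact ⟨k1, hG.1, k2, hG.2⟩
  rcases hg with rfl | rfl
  · obtain ⟨a1, a2, a3⟩ := h2 𝒰 h𝒰 (hsub.trans inter_subset_left)
    exact ⟨a1, a2, fun h => key (a3 h)⟩
  · obtain ⟨a1, a2, a3⟩ := h4 𝒰 h𝒰 (hsub.trans inter_subset_right)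
    exact ⟨a1, a2, fun h => key ⟨(a3 h).1.symm, (a3 h).2⟩⟩

end Pool.Agent.Y330.N
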